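import Mathlib

set_option autoImplicit false

namespace Pool.Agent.Helper132.PermRamsey

open Finset

/-- bit reversal of the lowest `k` bits. -/
def rev : ℕ → ℕ → ℕ
  | 0, _ => 0
  | k + 1, x => (x % 2) * 2 ^ k + rev k (x / 2)

lemma rev_lt (k x : ℕ) : rev k x < 2 ^ k := by
  induction k generalizing x with
  | zero => simp [rev]
  | succ k ih =>
    have h1 := ih (x / 2)
    have h2 : x % 2 < 2 := Nat.mod_lt _ (by norm_num)
    rw [rev, pow_succ]
    have h3 : x % 2 * 2 ^ k ≤ 1 * 2 ^ k := Nat.mul_le_mul_right _ (by omega)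
    omega

lemma rev_inj (k : ℕ) {x y : ℕ} (hx : x < 2 ^ k) (hy : y < 2 ^ k) (h : rev k x = rev k y) :
    x = y := by
  induction k generalizing x y with
  | zero => simp at hx hy; omega
  | succ k ih =>
    rw [rev, rev] at h
    have h1 := rev_lt k (x / 2)
    have h2 := rev_lt k (y / 2)
    have h3 : x % 2 < 2 := Nat.mod_lt _ (by norm_num)
    have h4 : y % 2 < 2 := Nat.mod_lt _ (by norm_num)
    rw [pow_succ] at hx hy
    have h5 : x % 2 = y % 2 ∧ rev k (x / 2) = rev k (y / 2) := by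
      generalize x % 2 = a at h h3
      generalize y % 2 = b at h h4
      have ha : a = 0 ∨ a = 1 := by omega
      have hb : b = 0 ∨ b = 1 := by omega
      rcases ha with rfl | rfl <;> rcases hb with rfl | rfl <;> refine ⟨?_, ?_⟩ <;> omega
    have h6 := ih (by omega : x / 2 < 2 ^ k) (by omega : y / 2 < 2 ^ k) h5.2
    omega

lemma rev_split (s r a y : ℕ) (hy : y < 2 ^ s) :
    rev (s + r) (a * 2 ^ s + y) = rev s y * 2 ^ r + rev r a := by
  induction s generalizing a y with
  | zero =>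
    simp at hy
    subst hy
    simp [rev]
  | succ s ih =>
    have h1 : s + 1 + r = (s + r) + 1 := by ring
    rw [h1, rev, rev]
    have h2 : a * 2 ^ (s + 1) + y = 2 * (a * 2 ^ s) + y := by rw [pow_succ]; ring
    have h3 : (a * 2 ^ (s + 1) + y) % 2 = y % 2 := by rw [h2]; omega
    have h4 : (a * 2 ^ (s + 1) + y) / 2 = a * 2 ^ s + y / 2 := by rw [h2]; omega
    rw [pow_succ] at hy
    rw [h3, h4, ih a (y / 2) (by omega), pow_add]
    ring

/-- The bit reversal permutation of `2 ^ k` points. -/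
noncomputable def bitrev (k : ℕ) : Equiv.Perm (Fin (2 ^ k)) :=
  Equiv.ofBijective (fun x => ⟨rev k x, rev_lt k x⟩) (by
    rw [← Finite.injective_iff_bijective]
    intro x y h
    simp only [Fin.mk.injEq] at h
    exact Fin.ext (rev_inj k x.2 y.2 h))

@[simp] lemma bitrev_val (k : ℕ) (x : Fin (2 ^ k)) : ((bitrev k x : Fin (2 ^ k)) : ℕ) = rev k x :=
  rfl

/-- for `s + r = k` the map `x ↦ (x / 2^s, rev x / 2^r)` is injective. -/
lemma net_inj {s r x y : ℕ}
    (h1 : x / 2 ^ s = y / 2 ^ s) (h2 : rev (s + r) x / 2 ^ r = rev (s + r) y / 2 ^ r) :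
    x = y := by
  have hp : 0 < 2 ^ s := by positivity
  have hr : 0 < 2 ^ r := by positivity
  have ex := Nat.div_add_mod' x (2 ^ s)
  have ey := Nat.div_add_mod' y (2 ^ s)
  have lx := Nat.mod_lt x hp
  have ly := Nat.mod_lt y hp
  rw [← ex, ← ey, rev_split s r _ _ lx, rev_split s r _ _ ly] at h2
  have e1 : ∀ a b : ℕ, (rev s a * 2 ^ r + rev r b) / 2 ^ r = rev s a := by
    intro a b
    rw [add_comm, Nat.add_mul_div_right _ _ hr, Nat.div_eq_of_lt (rev_lt r b), zero_add]
  rw [e1, e1] at h2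
  have h3 := rev_inj s lx ly h2
  rw [← ex, ← ey, h1, h3]

/-- for `s + r = k` the map `x ↦ (x / 2^s, rev x / 2^r)` is surjective. -/
lemma net_surj {s r a b : ℕ} (ha : a < 2 ^ r) (hb : b < 2 ^ s) :
    ∃ x, x < 2 ^ (s + r) ∧ x / 2 ^ s = a ∧ rev (s + r) x / 2 ^ r = b := by
  have hp : 0 < 2 ^ s := by positivity
  have hr : 0 < 2 ^ r := by positivity
  obtain ⟨y, hy⟩ := (bitrev s).surjective ⟨b, hb⟩
  have hy' : rev s y = b := by
    have := congrArg Fin.val hy
    simpa using this
  refine ⟨a * 2 ^ s + y, ?_, ?_, ?_⟩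
  · have h1 : a * 2 ^ s + y < (a + 1) * 2 ^ s := by
      have := y.2
      rw [add_mul]; omega
    refine h1.trans_le ?_
    rw [pow_add, mul_comm (2 ^ s)]
    exact Nat.mul_le_mul_right _ ha
  · rw [add_comm, Nat.add_mul_div_right _ _ hp, Nat.div_eq_of_lt y.2, zero_add]
  · rw [rev_split s r a y y.2, hy', add_comm, Nat.add_mul_div_right _ _ hr,
      Nat.div_eq_of_lt (rev_lt r a), zero_add]

/-- The points of bit reversal in the box `[u, u + A) × [v, v + B)`. -/
def box (k u A v B : ℕ) : Finset (Fin (2 ^ k)) :=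
  univ.filter (fun x => u ≤ (x : ℕ) ∧ (x : ℕ) < u + A ∧ v ≤ rev k x ∧ rev k x < v + B)

lemma exists_pow (A k : ℕ) (hA : 1 ≤ A) (hAk : A ≤ 2 ^ k) :
    ∃ s ≤ k, 2 ^ s ≤ A ∧ A < 2 * 2 ^ s := by
  refine ⟨Nat.log 2 A, ?_, Nat.pow_log_le_self 2 (by omega), ?_⟩
  · have := Nat.log_mono_right (b := 2) hAk
    rwa [Nat.log_pow (by norm_num)] at this
  · have := Nat.lt_pow_succ_log_self (b := 2) (by norm_num) A
    rw [pow_succ] at this
    omega

theorem net_upper (k u A v B : ℕ) (hAk : A ≤ 2 ^ k) :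
    (box k u A v B).card * 2 ^ k ≤ 3 * (A * B) + 6 * 2 ^ k := by
  rcases Nat.eq_zero_or_pos A with rfl | hA
  · have : box k u 0 v B = ∅ := by
      rw [box, filter_eq_empty_iff]
      intro x _ h
      omega
    rw [this]; simp
  rcases Nat.eq_zero_or_pos B with rfl | hB
  · have : box k u A v 0 = ∅ := by
      rw [box, filter_eq_empty_iff]
      intro x _ h
      omega
    rw [this]; simp
  obtain ⟨s, hs, h1, h2⟩ := exists_pow A k hA hAk
  obtain ⟨r, rfl⟩ : ∃ r, k = s + r := ⟨k - s, by omega⟩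
  have hp : 0 < 2 ^ s := by positivity
  have hr : 0 < 2 ^ r := by positivity
  set L := 2 ^ s with hL
  set L' := 2 ^ r with hL'
  have hk : 2 ^ (s + r) = L * L' := by rw [hL, hL', pow_add]
  have hcard : (box (s + r) u A v B).card ≤
      (Icc (u / L) ((u + A - 1) / L) ×ˢ Icc (v / L') ((v + B - 1) / L')).card := by
    refine card_le_card_of_injOn (fun x => ((x : ℕ) / L, rev (s + r) x / L')) ?_ ?_
    · intro x hx
      rw [mem_coe, box, mem_filter] at hx
      obtain ⟨_, hx1, hx2, hx3, hx4⟩ := hx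
      rw [mem_coe, mem_product, mem_Icc, mem_Icc]
      exact ⟨⟨Nat.div_le_div_right hx1, Nat.div_le_div_right (by omega)⟩,
        ⟨Nat.div_le_div_right hx3, Nat.div_le_div_right (by omega)⟩⟩
    · intro x _ y _ h
      simp only [Prod.mk.injEq] at h
      exact Fin.ext (net_inj h.1 h.2)
  rw [card_product, Nat.card_Icc, Nat.card_Icc] at hcard
  have e1 : (u + A - 1) / L + 1 - u / L ≤ 3 := by
    have : (u + A - 1) / L ≤ u / L + 2 := by
      rw [← Nat.add_mul_div_right _ _ hp]
      apply Nat.div_le_div_right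
      omega
    omega
  have e2 : ((v + B - 1) / L' + 1 - v / L') * L' ≤ B + 2 * L' := by
    have a1 := Nat.div_mul_le_self (v + B - 1) L'
    have a2 := Nat.lt_div_mul_add (a := v) hr
    rcases Nat.lt_or_ge ((v + B - 1) / L' + 1) (v / L') with h | h
    · rw [Nat.sub_eq_zero_of_le h.le]; omega
    · rw [Nat.sub_mul, add_mul]
      omega
  generalize (box (s + r) u A v B).card = Q at hcard ⊢
  rw [hk]
  calc Q * (L * L')
      ≤ (3 * ((v + B - 1) / L' + 1 - v / L')) * (L * L') := by
        apply Nat.mul_le_mul_right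
        exact hcard.trans (Nat.mul_le_mul_right _ e1)
    _ = 3 * L * (((v + B - 1) / L' + 1 - v / L') * L') := by ring
    _ ≤ 3 * L * (B + 2 * L') := Nat.mul_le_mul_left _ e2
    _ = 3 * (L * B) + 6 * (L * L') := by ring
    _ ≤ 3 * (A * B) + 6 * (L * L') := by
        have : L * B ≤ A * B := Nat.mul_le_mul_right _ h1
        omega

theorem net_lower (k u A v B : ℕ) (hu : u + A ≤ 2 ^ k) (hv : v + B ≤ 2 ^ k)
    (h : 32 * 2 ^ k ≤ A * B) : A * B ≤ 4 * ((box k u A v B).card * 2 ^ k) := by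
  have hk0 : 0 < 2 ^ k := by positivity
  have hA : 32 ≤ A := by
    by_contra hcon
    have h1 : A * B ≤ 31 * 2 ^ k := Nat.mul_le_mul (by omega) (by omega)
    omega
  obtain ⟨s, hs, h1, h2⟩ := exists_pow (A / 4) k (by omega) (by omega)
  obtain ⟨r, rfl⟩ : ∃ r, k = s + r := ⟨k - s, by omega⟩
  have hp : 0 < 2 ^ s := by positivity
  have hr : 0 < 2 ^ r := by positivity
  set L := 2 ^ s with hL
  set L' := 2 ^ r with hL'
  have hk : 2 ^ (s + r) = L * L' := by rw [hL, hL', pow_add]
  have hA1 : 4 * L ≤ A := by omega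
  have hA2 : A < 8 * L := by omega
  have hB : 4 * L' ≤ B := by
    by_contra hcon
    have hB2 : B ≤ 4 * L' := by omega
    have : A * B ≤ (8 * L) * (4 * L') := Nat.mul_le_mul hA2.le hB2
    rw [hk] at h
    have h4 : (8 * L) * (4 * L') = 32 * (L * L') := by ring
    have hB3 : B < 4 * L' := by omega
    have : A * B < (8 * L) * (4 * L') := by
      apply Nat.mul_lt_mul_of_lt_of_le hA2 hB2 (by omega)
    omega
  have hcard : (Ico ((u + L - 1) / L) ((u + A) / L) ×ˢ
      Ico ((v + L' - 1) / L') ((v + B) / L')).card ≤ (box (s + r) u A v B).card := by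
    refine card_le_card_of_surjOn (fun x : Fin (2 ^ (s + r)) => ((x : ℕ) / L, rev (s + r) x / L')) ?_
    rintro ⟨a, b⟩ hab
    rw [mem_coe, mem_product, mem_Ico, mem_Ico] at hab
    obtain ⟨⟨ha1, ha2⟩, hb1, hb2⟩ := hab
    simp only at ha1 ha2 hb1 hb2
    have ha3 : (a + 1) * L ≤ u + A := by
      have := Nat.div_mul_le_self (u + A) L
      have : (a + 1) * L ≤ ((u + A) / L) * L := Nat.mul_le_mul_right _ ha2
      omega
    have hb3 : (b + 1) * L' ≤ v + B := by
      have := Nat.div_mul_le_self (v + B) L'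
      have : (b + 1) * L' ≤ ((v + B) / L') * L' := Nat.mul_le_mul_right _ hb2
      omega
    have ha4 : u ≤ a * L := by
      have h5 := Nat.lt_div_mul_add (a := u + L - 1) hp
      have h6 : ((u + L - 1) / L) * L ≤ a * L := Nat.mul_le_mul_right _ ha1
      omega
    have hb4 : v ≤ b * L' := by
      have h5 := Nat.lt_div_mul_add (a := v + L' - 1) hr
      have h6 : ((v + L' - 1) / L') * L' ≤ b * L' := Nat.mul_le_mul_right _ hb1
      omega
    have ha5 : a < L' := by
      have h5 : (a + 1) * L ≤ L' * L := by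
        rw [mul_comm L' L, ← hk]; omega
      have := Nat.le_of_mul_le_mul_right h5 hp
      omega
    have hb5 : b < L := by
      have h5 : (b + 1) * L' ≤ L * L' := by
        rw [← hk]; omega
      have := Nat.le_of_mul_le_mul_right h5 hr
      omega
    obtain ⟨x, hx, hxa, hxb⟩ := net_surj (s := s) (r := r) ha5 hb5
    refine ⟨⟨x, hx⟩, ?_, ?_⟩
    · rw [mem_coe, box, mem_filter]
      refine ⟨mem_univ _, ?_⟩
      simp only
      have e1 := Nat.div_add_mod' x L
      have e2 := Nat.mod_lt x hp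
      have e3 := Nat.div_add_mod' (rev (s + r) x) L'
      have e4 := Nat.mod_lt (rev (s + r) x) hr
      rw [hxa] at e1
      rw [hxb] at e3
      rw [add_mul, one_mul] at ha3 hb3
      refine ⟨by omega, by omega, by omega, by omega⟩
    · simp only [Prod.mk.injEq]
      exact ⟨hxa, hxb⟩
  rw [card_product, Nat.card_Ico, Nat.card_Ico] at hcard
  have e1 : A ≤ 2 * (((u + A) / L - (u + L - 1) / L) * L) := by
    have a1 := Nat.lt_div_mul_add (a := u + A) hp
    have a2 := Nat.div_mul_le_self (u + L - 1) L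
    rw [Nat.sub_mul]
    omega
  have e2 : B ≤ 2 * (((v + B) / L' - (v + L' - 1) / L') * L') := by
    have a1 := Nat.lt_div_mul_add (a := v + B) hr
    have a2 := Nat.div_mul_le_self (v + L' - 1) L'
    rw [Nat.sub_mul]
    omega
  generalize (box (s + r) u A v B).card = Q at hcard ⊢
  rw [hk]
  calc A * B ≤ (2 * (((u + A) / L - (u + L - 1) / L) * L)) *
        (2 * (((v + B) / L' - (v + L' - 1) / L') * L')) := Nat.mul_le_mul e1 e2
    _ = 4 * ((((u + A) / L - (u + L - 1) / L) * ((v + B) / L' - (v + L' - 1) / L')) * (L * L')) := by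
        ring
    _ ≤ _ := by gcongr

end Pool.Agent.Helper132.PermRamsey
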