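import Pool.Agent.Helper132.HeavyCount
import Pool.Agent.Helper132.Net

set_option autoImplicit false
set_option linter.constructorNameAsVariable false
set_option maxRecDepth 20000

namespace Pool.Agent.Helper132.PermRamsey

open Finset

/-- the size of a fibre. -/
def cnt {n K : ℕ} (i : Fin n → Fin K) (a : Fin K) : ℕ := (univ.filter (fun x => i x = a)).card

/-- the occupied cells of small expected occupancy. -/
def lightSet {n K : ℕ} (π : Equiv.Perm (Fin n)) (i j : Fin n → Fin K) : Finset (Fin K × Fin K) :=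
  (univ.filter (fun x : Fin n => cnt i (i x) * cnt j (j (π x)) < 32 * n)).image
    (fun x => (i x, j (π x)))

/-- all large light sets. -/
def lightAll (n K : ℕ) (π : Equiv.Perm (Fin n)) : Finset (Finset (Fin K × Fin K)) :=
  (((univ.filter (fun f : Fin n → Fin K => Monotone f)) ×ˢ
    (univ.filter (fun f : Fin n → Fin K => Monotone f))).image
      (fun ij => lightSet π ij.1 ij.2)).filter (fun S => n ≤ 204 * S.card)

lemma sparse_light (n K : ℕ) (hK : 1 ≤ K) (hn : n = 2 ^ 18 * K) (π : Equiv.Perm (Fin n)) :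
    Sparse (lightAll n K π) (1 / 8) := by
  refine Sparse.of_card (2 ^ (40 * K)) (1024 * K) ?_ ?_ ?_
  · intro S hS
    rw [lightAll, mem_filter] at hS
    have := hS.2
    norm_num at hn
    omega
  · intro c
    refine (card_filter_le _ _).trans ?_
    rw [lightAll]
    refine (card_filter_le _ _).trans (card_image_le.trans ?_)
    rw [card_product]
    have h1 : (univ.filter (fun f : Fin n → Fin K => Monotone f)).card ≤ (2 ^ 20) ^ K := by
      refine (card_mono n K).trans (choose_le ?_)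
      rw [hn]
      norm_num
      omega
    calc _ ≤ (2 ^ 20) ^ K * (2 ^ 20) ^ K := Nat.mul_le_mul h1 h1
      _ = 2 ^ (40 * K) := by rw [← pow_mul, ← pow_add]; congr 1; ring
  · push_cast
    have h2 : (2 / 3 : ℝ) ^ (1024 * K - 1) ≤ (3 / 2) * (2 / 3 : ℝ) ^ (1024 * K) := by
      obtain ⟨q, hq⟩ : ∃ q, 1024 * K = q + 1 := ⟨1024 * K - 1, by omega⟩
      rw [hq, Nat.add_sub_cancel, pow_succ]
      apply le_of_eq; ring
    have h3 : (2 / 3 : ℝ) ^ (1024 * K) ≤ (1 / 2) ^ (512 * K) := by
      have : 1024 * K = 2 * (512 * K) := by ring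
      rw [this, pow_mul]
      exact pow_le_pow_left₀ (by norm_num) (by norm_num) _
    have h4 : (2 : ℝ) ^ (40 * K) * (1 / 2) ^ (512 * K) ≤ (1 / 2) ^ 4 := by
      obtain ⟨q, hq⟩ : ∃ q, K = q + 1 := ⟨K - 1, by omega⟩
      have e : 512 * K = 40 * K + (4 + (468 + 472 * q)) := by omega
      rw [e, pow_add, ← mul_assoc, ← mul_pow, pow_add _ 4]
      have h5 : (1 / 2 : ℝ) ^ (468 + 472 * q) ≤ 1 := pow_le_one₀ (by norm_num) (by norm_num)
      have h6 : (2 * (1 / 2) : ℝ) = 1 := by norm_num
      rw [h6, one_pow, one_mul]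
      have h7 : (0 : ℝ) ≤ (1 / 2) ^ 4 := by positivity
      nlinarith
    calc (2 : ℝ) ^ (40 * K) * (2 / 3 : ℝ) ^ (1024 * K - 1)
        ≤ (2 : ℝ) ^ (40 * K) * ((3 / 2) * (1 / 2) ^ (512 * K)) := by
          have := h2.trans (mul_le_mul_of_nonneg_left h3 (by norm_num : (0 : ℝ) ≤ 3 / 2))
          gcongr
      _ = (3 / 2) * ((2 : ℝ) ^ (40 * K) * (1 / 2) ^ (512 * K)) := by ring
      _ ≤ (3 / 2) * (1 / 2) ^ 4 := by gcongr
      _ ≤ 1 / 8 := by norm_num

/-- the staircase lemma. -/
lemma staircase {K : ℕ} (n : ℕ) (hn : 0 < n) (A B : Fin K → ℕ) (hA : ∑ a, A a = n)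
    (hB : ∑ b, B b = n)
    (h : n ^ 2 ≤ 8 * ∑ c : Fin K × Fin K with 32 * n ≤ A c.1 * B c.2, A c.1 * B c.2) :
    ∃ x : ℕ, n ≤ 16 * ∑ a with x ≤ A a, A a ∧ n ≤ 16 * ∑ b with 32 * n ≤ x * B b, B b := by
  by_contra hcon
  push Not at hcon
  have hex : ∃ y : ℕ, 16 * ∑ a with y ≤ A a, A a < n := by
    refine ⟨n + 1, ?_⟩
    rw [filter_false_of_mem, sum_empty]
    · omega
    · intro a _
      have : A a ≤ ∑ a, A a := single_le_sum (fun _ _ => Nat.zero_le _) (mem_univ a)
      omega
  classical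
  set y := Nat.find hex with hy
  have hy1 : 16 * ∑ a with y ≤ A a, A a < n := Nat.find_spec hex
  have hy0 : y ≠ 0 := by
    intro h0
    rw [h0] at hy1
    simp only [Nat.zero_le, filter_true] at hy1
    rw [hA] at hy1
    omega
  obtain ⟨x, hx⟩ : ∃ x, y = x + 1 := ⟨y - 1, by omega⟩
  have hx1 : n ≤ 16 * ∑ a with x ≤ A a, A a := by
    have := Nat.find_min hex (m := x) (by omega)
    omega
  have hx2 := hcon x hx1
  -- bound the sum
  have h1 : ∑ c : Fin K × Fin K with 32 * n ≤ A c.1 * B c.2, A c.1 * B c.2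
      ≤ (∑ a with y ≤ A a, A a) * n + n * ∑ b with 32 * n ≤ x * B b, B b := by
    rw [sum_filter, Fintype.sum_prod_type]
    have h2 : ∀ a : Fin K, (∑ b : Fin K, if 32 * n ≤ A a * B b then A a * B b else 0)
        ≤ (if y ≤ A a then A a else 0) * n + A a * ∑ b with 32 * n ≤ x * B b, B b := by
      intro a
      split_ifs with hya
      · have : (∑ b : Fin K, if 32 * n ≤ A a * B b then A a * B b else 0) ≤ ∑ b, A a * B b := by
          refine sum_le_sum fun b _ => ?_
          split_ifs
          · exact le_rfl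
          · exact Nat.zero_le _
        rw [← mul_sum, hB] at this
        omega
      · rw [zero_mul, zero_add, mul_sum, sum_filter]
        refine sum_le_sum fun b _ => ?_
        by_cases h3 : 32 * n ≤ A a * B b
        · have h4 : 32 * n ≤ x * B b := h3.trans (Nat.mul_le_mul_right _ (by omega))
          rw [if_pos h3, if_pos h4]
        · rw [if_neg h3]; exact Nat.zero_le _
    refine (sum_le_sum fun a _ => h2 a).trans ?_
    rw [sum_add_distrib, ← sum_mul, ← sum_mul, hA, ← sum_filter]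
  have h5 : 16 * (∑ a with y ≤ A a, A a) * n < n * n := Nat.mul_lt_mul_of_pos_right hy1 hn
  have h6 : n * (16 * ∑ b with 32 * n ≤ x * B b, B b) < n * n := Nat.mul_lt_mul_of_pos_left hx2 hn
  nlinarith

lemma sum_cnt {n K : ℕ} (i : Fin n → Fin K) : ∑ a, cnt i a = n := by
  have := card_eq_sum_card_fiberwise (f := i) (s := univ) (t := univ) (fun _ _ => mem_univ _)
  rw [card_univ, Fintype.card_fin] at this
  exact this.symm

/-- the number of points of `π` in a cell. -/
def pcnt {n K : ℕ} (π : Equiv.Perm (Fin n)) (i j : Fin n → Fin K) (a b : Fin K) : ℕ :=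
  (univ.filter (fun x => i x = a ∧ j (π x) = b)).card

lemma sum_pcnt_row {n K : ℕ} (π : Equiv.Perm (Fin n)) (i j : Fin n → Fin K) (a : Fin K) :
    ∑ b, pcnt π i j a b = cnt i a := by
  have := card_eq_sum_card_fiberwise (f := fun x => j (π x)) (s := univ.filter (fun x => i x = a))
    (t := univ) (fun _ _ => mem_univ _)
  rw [cnt, this]
  refine sum_congr rfl fun b _ => ?_
  rw [pcnt, filter_filter]

lemma sum_pcnt_col {n K : ℕ} (π : Equiv.Perm (Fin n)) (i j : Fin n → Fin K) (b : Fin K) :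
    ∑ a, pcnt π i j a b = cnt j b := by
  have h1 : cnt j b = (univ.filter (fun x => j (π x) = b)).card := by
    rw [cnt]
    refine (card_bij (fun x _ => π x) ?_ ?_ ?_).symm
    · intro x hx
      rw [mem_filter] at hx ⊢
      exact ⟨mem_univ _, hx.2⟩
    · intro x _ y _ h
      exact π.injective h
    · intro y hy
      rw [mem_filter] at hy
      refine ⟨π.symm y, ?_, by simp⟩
      rw [mem_filter]
      refine ⟨mem_univ _, ?_⟩
      simpa using hy.2
  have := card_eq_sum_card_fiberwise (f := i) (s := univ.filter (fun x => j (π x) = b))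
    (t := univ) (fun _ _ => mem_univ _)
  rw [h1, this]
  refine sum_congr rfl fun a _ => ?_
  rw [pcnt, filter_filter]
  congr 1
  ext x
  simp only [mem_filter, mem_univ, true_and]
  tauto

lemma pcnt_box (k K : ℕ) (i j : Fin (2 ^ k) → Fin K) (hi : Monotone i) (hj : Monotone j)
    (a b : Fin K) : ∃ u v, u + cnt i a ≤ 2 ^ k ∧ v + cnt j b ≤ 2 ^ k ∧
      pcnt (bitrev k) i j a b = (box k u (cnt i a) v (cnt j b)).card := by
  obtain ⟨u, hu, hu'⟩ := fiber_interval i hi a
  obtain ⟨v, hv, hv'⟩ := fiber_interval j hj b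
  refine ⟨u, v, hu, hv, ?_⟩
  rw [pcnt, box]
  congr 1
  ext x
  rw [mem_filter, mem_filter]
  refine and_congr_right fun _ => ?_
  rw [hu' x, hv' (bitrev k x), bitrev_val, and_assoc]
  rfl

lemma pcnt_upper (k K : ℕ) (i j : Fin (2 ^ k) → Fin K) (hi : Monotone i) (hj : Monotone j)
    (a b : Fin K) :
    pcnt (bitrev k) i j a b * 2 ^ k ≤ 3 * (cnt i a * cnt j b) + 6 * 2 ^ k := by
  obtain ⟨u, v, hu, hv, h⟩ := pcnt_box k K i j hi hj a b
  rw [h]
  exact net_upper k u _ v _ (by omega)

lemma pcnt_lower (k K : ℕ) (i j : Fin (2 ^ k) → Fin K) (hi : Monotone i) (hj : Monotone j)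
    (a b : Fin K) (h : 32 * 2 ^ k ≤ cnt i a * cnt j b) :
    cnt i a * cnt j b ≤ 4 * (pcnt (bitrev k) i j a b * 2 ^ k) := by
  obtain ⟨u, v, hu, hv, h'⟩ := pcnt_box k K i j hi hj a b
  rw [h']
  exact net_lower k u _ v _ hu hv h

/-- the occupied cells of a type contain a member of the family. -/
lemma exists_member (n K M : ℕ) (hn0 : 0 < n) (hM : 0 < M) (hn : 2 ^ 20 * M ≤ n)
    (π : Equiv.Perm (Fin n))
    (w : Fin K → Fin K → ℕ) (hrow : ∀ i, ∑ j, w i j ≤ M) (hcol : ∀ j, ∑ i, w i j ≤ M)
    (i j : Fin n → Fin K) (hi : Monotone i) (hj : Monotone j)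
    (hup : ∀ a b, pcnt π i j a b * n ≤ 3 * (cnt i a * cnt j b) + 6 * n)
    (hlow : ∀ a b, 32 * n ≤ cnt i a * cnt j b → cnt i a * cnt j b ≤ 4 * (pcnt π i j a b * n))
    (hw : ∀ a b, pcnt π i j a b ≤ w a b) :
    ∃ S ∈ lightAll n K π ∪ (heavyAll n w ∪
      (heavyAll n (fun a b => w b a)).image (fun S => S.image Prod.swap)),
      ∀ c ∈ S, ∃ x, c = (i x, j (π x)) := by
  by_cases hlight : n ≤ 2 * (univ.filter (fun x : Fin n =>
      cnt i (i x) * cnt j (j (π x)) < 32 * n)).card
  · refine ⟨lightSet π i j, ?_, ?_⟩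
    · rw [mem_union]
      left
      rw [lightAll, mem_filter, mem_image]
      refine ⟨⟨(i, j), ?_, rfl⟩, ?_⟩
      · rw [mem_product, mem_filter, mem_filter]
        exact ⟨⟨mem_univ _, hi⟩, ⟨mem_univ _, hj⟩⟩
      · have h1 : (univ.filter (fun x : Fin n => cnt i (i x) * cnt j (j (π x)) < 32 * n)).card
            ≤ 102 * (lightSet π i j).card := by
          rw [lightSet]
          refine card_le_mul_card_image _ 102 ?_
          intro c hc
          rw [mem_image] at hc
          obtain ⟨x, hx, rfl⟩ := hc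
          rw [mem_filter] at hx
          have h2 := hup (i x) (j (π x))
          have h3 : pcnt π i j (i x) (j (π x)) * n ≤ 102 * n := by omega
          have h4 := Nat.le_of_mul_le_mul_right h3 hn0
          refine le_trans (card_le_card ?_) h4
          intro y hy
          rw [mem_filter] at hy
          rw [mem_filter]
          refine ⟨mem_univ _, ?_⟩
          have := hy.2
          simp only [Prod.mk.injEq] at this
          exact this
        omega
    · intro c hc
      rw [lightSet, mem_image] at hc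
      obtain ⟨x, _, hx⟩ := hc
      exact ⟨x, hx.symm⟩
  · push Not at hlight
    -- heavy points
    have hsplit : n = (univ.filter (fun x : Fin n => cnt i (i x) * cnt j (j (π x)) < 32 * n)).card
        + (univ.filter (fun x : Fin n => ¬ (cnt i (i x) * cnt j (j (π x)) < 32 * n))).card := by
      rw [card_filter_add_card_filter_not, card_univ, Fintype.card_fin]
    have hheavy : n ≤ 2 * (univ.filter (fun x : Fin n =>
        ¬ (cnt i (i x) * cnt j (j (π x)) < 32 * n))).card := by omega
    have hsum : (univ.filter (fun x : Fin n => ¬ (cnt i (i x) * cnt j (j (π x)) < 32 * n))).card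
        = ∑ c : Fin K × Fin K with 32 * n ≤ cnt i c.1 * cnt j c.2, pcnt π i j c.1 c.2 := by
      rw [card_eq_sum_card_fiberwise (f := fun x => (i x, j (π x)))
        (t := univ.filter (fun c : Fin K × Fin K => 32 * n ≤ cnt i c.1 * cnt j c.2))]
      · refine sum_congr rfl fun c hc => ?_
        rw [mem_filter] at hc
        rw [pcnt]
        congr 1
        ext x
        simp only [mem_filter, mem_univ, true_and]
        constructor
        · rintro ⟨_, h⟩
          rw [← h]
          exact ⟨rfl, rfl⟩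
        · rintro ⟨h1, h2⟩
          refine ⟨?_, ?_⟩
          · rw [h1, h2]
            have := hc.2
            omega
          · rw [h1, h2]
      · intro x hx
        rw [mem_coe, mem_filter] at hx
        rw [mem_coe, mem_filter]
        refine ⟨mem_univ _, ?_⟩
        have := hx.2
        simp only
        omega
    have hAB : n ^ 2 ≤ 8 * ∑ c : Fin K × Fin K with 32 * n ≤ cnt i c.1 * cnt j c.2,
        cnt i c.1 * cnt j c.2 := by
      have h1 : (∑ c : Fin K × Fin K with 32 * n ≤ cnt i c.1 * cnt j c.2, pcnt π i j c.1 c.2) * n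
          ≤ ∑ c : Fin K × Fin K with 32 * n ≤ cnt i c.1 * cnt j c.2,
            4 * (cnt i c.1 * cnt j c.2) := by
        rw [sum_mul]
        refine sum_le_sum fun c hc => ?_
        rw [mem_filter] at hc
        have h2 := hup c.1 c.2
        have := hc.2
        omega
      rw [← mul_sum] at h1
      rw [hsum] at hheavy
      calc n ^ 2 = n * n := sq n
        _ ≤ (2 * ∑ c : Fin K × Fin K with 32 * n ≤ cnt i c.1 * cnt j c.2,
            pcnt π i j c.1 c.2) * n := Nat.mul_le_mul_right _ hheavy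
        _ = 2 * ((∑ c : Fin K × Fin K with 32 * n ≤ cnt i c.1 * cnt j c.2,
            pcnt π i j c.1 c.2) * n) := by ring
        _ ≤ 2 * (4 * ∑ c : Fin K × Fin K with 32 * n ≤ cnt i c.1 * cnt j c.2,
            cnt i c.1 * cnt j c.2) := Nat.mul_le_mul_left _ h1
        _ = _ := by ring
    obtain ⟨x, hx1, hx2⟩ := staircase n hn0 (cnt i) (cnt j) (sum_cnt i) (sum_cnt j) hAB
    set I : Finset (Fin K) := univ.filter (fun a => x ≤ cnt i a) with hI
    set J : Finset (Fin K) := univ.filter (fun b => 32 * n ≤ x * cnt j b) with hJ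
    have hIJ : ∀ a ∈ I, ∀ b ∈ J, 32 * n ≤ cnt i a * cnt j b := by
      intro a ha b hb
      rw [hI, mem_filter] at ha
      rw [hJ, mem_filter] at hb
      exact hb.2.trans (Nat.mul_le_mul_right _ ha.2)
    have hocc : ∀ a ∈ I, ∀ b ∈ J, ∃ y, (a, b) = (i y, j (π y)) := by
      intro a ha b hb
      have h1 := hIJ a ha b hb
      have h2 := hlow a b h1
      have h3 : 0 < pcnt π i j a b := by
        rcases Nat.eq_zero_or_pos (pcnt π i j a b) with h | h
        · rw [h] at h2
          omega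
        · exact h
      rw [pcnt, card_pos] at h3
      obtain ⟨y, hy⟩ := h3
      rw [mem_filter] at hy
      exact ⟨y, by rw [hy.2.1, hy.2.2]⟩
    have hcA : ∀ a ∈ I, cnt i a ≤ M := by
      intro a _
      rw [← sum_pcnt_row π i j a]
      exact (sum_le_sum fun b _ => hw a b).trans (hrow a)
    have hcB : ∀ b ∈ J, cnt j b ≤ M := by
      intro b _
      rw [← sum_pcnt_col π i j b]
      exact (sum_le_sum fun a _ => hw a b).trans (hcol b)
    have hww : ∀ a ∈ I, ∀ b ∈ J, cnt i a * cnt j b ≤ 4 * n * w a b := by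
      intro a ha b hb
      have h1 := hIJ a ha b hb
      have h2 := hlow a b h1
      calc _ ≤ _ := h2
        _ = 4 * n * pcnt π i j a b := by ring
        _ ≤ _ := Nat.mul_le_mul_left _ (hw a b)
    obtain ⟨p, m, hp, hpm, hmK, h⟩ := select n M hM hn w hrow hcol (cnt i) (cnt j) I J hcA hcB
      hx1 hx2 hww
    rcases h with ⟨S, hS, hSs⟩ | ⟨S, hS, hSs⟩
    · refine ⟨S, ?_, ?_⟩
      · rw [mem_union, mem_union]
        right; left
        exact mem_heavyAll.2 ⟨p, m, hp, hpm, hmK, hS⟩
      · intro c hc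
        have := hSs hc
        rw [mem_product] at this
        exact hocc c.1 this.1 c.2 this.2
    · refine ⟨S.image Prod.swap, ?_, ?_⟩
      · rw [mem_union, mem_union]
        right; right
        rw [mem_image]
        exact ⟨S, mem_heavyAll.2 ⟨p, m, hp, hpm, hmK, hS⟩, rfl⟩
      · intro c hc
        rw [mem_image] at hc
        obtain ⟨d, hd, rfl⟩ := hc
        have := hSs hd
        rw [mem_product] at this
        exact hocc d.2 this.2 d.1 this.1

/-- the colouring of the cells. -/
theorem exists_coloring (k K M : ℕ) (hM : 0 < M) (hKM : K = 4 * M) (hn : 2 ^ k = 2 ^ 20 * M)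
    (w : Fin K → Fin K → ℕ) (hrow : ∀ i, ∑ j, w i j ≤ M) (hcol : ∀ j, ∑ i, w i j ≤ M) :
    ∃ R : Finset (Fin K × Fin K), ∀ i j : Fin (2 ^ k) → Fin K, Monotone i → Monotone j →
      (∀ a b, pcnt (bitrev k) i j a b ≤ w a b) →
      (∃ x, (i x, j (bitrev k x)) ∈ R) ∧ (∃ x, (i x, j (bitrev k x)) ∉ R) := by
  have hn' : 2 ^ 20 * M ≤ 2 ^ k := hn.ge
  set 𝒮 := lightAll (2 ^ k) K (bitrev k) ∪ (heavyAll (2 ^ k) w ∪
      (heavyAll (2 ^ k) (fun a b => w b a)).image (fun S => S.image Prod.swap)) with h𝒮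
  have hsparse : Sparse 𝒮 (1 / 4) := by
    have h1 := sparse_light (2 ^ k) K (by omega) (by rw [hn, hKM]; norm_num; omega) (bitrev k)
    have h2 := sparse_heavyAll (2 ^ k) M hM hn' w hcol
    have h3 := (sparse_heavyAll (2 ^ k) M hM hn' (fun a b => w b a) hrow).swap
    refine (h1.union (h2.union h3)).mono subset_rfl (by norm_num)
  have hne : ∀ S ∈ 𝒮, S.Nonempty := by
    intro S hS
    rw [h𝒮, mem_union, mem_union] at hS
    rw [← card_pos]
    rcases hS with hS | hS | hS
    · rw [lightAll, mem_filter] at hS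
      have h1 := hS.2
      have h2 : 0 < 2 ^ k := by positivity
      omega
    · obtain ⟨p, m, h1, h2, h3, h4⟩ := mem_heavyAll.1 hS
      rw [heavy_card h4]
      exact Nat.mul_pos (by omega) (by omega)
    · rw [mem_image] at hS
      obtain ⟨S', hS', rfl⟩ := hS
      obtain ⟨p, m, h1, h2, h3, h4⟩ := mem_heavyAll.1 hS'
      rw [card_image_of_injective _ Prod.swap_injective, heavy_card h4]
      exact Nat.mul_pos (by omega) (by omega)
  obtain ⟨R, _, hR⟩ := two_col 𝒮 hne hsparse univ
  refine ⟨R, fun i j hi hj hw => ?_⟩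
  obtain ⟨S, hS, hSc⟩ := exists_member (2 ^ k) K M (by positivity) hM hn' (bitrev k) w
    hrow hcol i j hi hj (pcnt_upper k K i j hi hj) (pcnt_lower k K i j hi hj) hw
  obtain ⟨h1, h2⟩ := hR S hS (subset_univ _)
  constructor
  · rw [not_disjoint_iff] at h2
    obtain ⟨c, hc, hcR⟩ := h2
    obtain ⟨x, hx⟩ := hSc c hc
    exact ⟨x, hx ▸ hcR⟩
  · rw [not_subset] at h1
    obtain ⟨c, hc, hcR⟩ := h1
    obtain ⟨x, hx⟩ := hSc c hc
    exact ⟨x, hx ▸ hcR⟩

end Pool.Agent.Helper132.PermRamsey
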