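import Mathlib

set_option autoImplicit false

namespace Pool.Agent.Helper132.PermRamsey

open Finset

lemma card_mono (n K : ℕ) :
    (univ.filter (fun f : Fin n → Fin K => Monotone f)).card ≤ (n + K).choose K := by
  classical
  have h1 : (n + K).choose K = ((univ : Finset (Fin (n + K))).powersetCard n).card := by
    rw [card_powersetCard, card_univ, Fintype.card_fin, Nat.choose_symm_add]
  rw [h1]
  let F : (Fin n → Fin K) → Fin n → Fin (n + K) := fun f x => ⟨x + f x, by omega⟩
  have hF : ∀ f : Fin n → Fin K, Monotone f → StrictMono (F f) := by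
    intro f hf x y hxy
    have h2 : f x ≤ f y := hf hxy.le
    have h3 : (x : ℕ) < y := hxy
    have h4 : (f x : ℕ) ≤ f y := h2
    show (⟨(x : ℕ) + f x, _⟩ : Fin (n + K)) < ⟨(y : ℕ) + f y, _⟩
    rw [Fin.mk_lt_mk]
    omega
  refine card_le_card_of_injOn (fun f => univ.image (F f)) ?_ ?_
  · intro f hf
    rw [mem_coe, mem_filter] at hf
    rw [mem_coe, mem_powersetCard]
    refine ⟨subset_univ _, ?_⟩
    rw [card_image_of_injective _ (hF f hf.2).injective, card_univ, Fintype.card_fin]
  · intro f hf g hg h
    rw [mem_coe, mem_filter] at hf hg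
    have h2 : Set.range (F f) = Set.range (F g) := by
      have := congrArg (fun s : Finset (Fin (n + K)) => (s : Set (Fin (n + K)))) h
      simpa using this
    have h3 := (StrictMono.range_inj (hF f hf.2) (hF g hg.2)).1 h2
    funext x
    have h4 := congrFun h3 x
    simp only [F, Fin.mk.injEq] at h4
    apply Fin.ext
    omega

/-- a downward closed predicate on `Fin n` is an initial segment. -/
lemma lower_iff {n : ℕ} (p : Fin n → Prop) [DecidablePred p] (hp : ∀ x y, x ≤ y → p y → p x)
    (x : Fin n) : p x ↔ (x : ℕ) < (univ.filter p).card := by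
  constructor
  · intro hx
    have h1 : (Iic x).card ≤ (univ.filter p).card := by
      apply card_le_card
      intro y hy
      rw [mem_Iic] at hy
      rw [mem_filter]
      exact ⟨mem_univ _, hp y x hy hx⟩
    rw [Fin.card_Iic] at h1
    omega
  · intro hx
    by_contra hpx
    have h1 : (univ.filter p).card ≤ (Iio x).card := by
      apply card_le_card
      intro y hy
      rw [mem_filter] at hy
      rw [mem_Iio]
      by_contra h
      exact hpx (hp x y (not_lt.1 h) hy.2)
    rw [Fin.card_Iio] at h1
    omega

/-- fibres of monotone maps are intervals. -/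
lemma fiber_interval {n K : ℕ} (i : Fin n → Fin K) (hi : Monotone i) (a : Fin K) :
    ∃ u : ℕ, u + (univ.filter (fun x => i x = a)).card ≤ n ∧
      ∀ x : Fin n, i x = a ↔ u ≤ (x : ℕ) ∧ (x : ℕ) < u + (univ.filter (fun x => i x = a)).card := by
  refine ⟨(univ.filter (fun x => i x < a)).card, ?_, ?_⟩
  · rw [← card_union_of_disjoint]
    · refine (card_le_univ _).trans ?_
      rw [Fintype.card_fin]
    · rw [disjoint_filter]
      intro x _ h1 h2
      exact absurd h2 h1.ne
  · intro x
    have h1 := lower_iff (fun x => i x < a) (fun x y hxy h => (hi hxy).trans_lt h) x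
    have h2 := lower_iff (fun x => i x ≤ a) (fun x y hxy h => (hi hxy).trans h) x
    have h3 : (univ.filter (fun x => i x ≤ a)).card =
        (univ.filter (fun x => i x < a)).card + (univ.filter (fun x => i x = a)).card := by
      rw [← card_union_of_disjoint]
      · congr 1
        ext x
        simp only [mem_filter, mem_univ, true_and, mem_union]
        exact le_iff_lt_or_eq
      · rw [disjoint_filter]
        intro x _ h1 h2
        exact absurd h2 h1.ne
    rw [← h3, ← h2]
    constructor
    · intro h
      refine ⟨?_, h.le⟩
      by_contra h4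
      exact absurd h (h1.2 (by omega)).ne
    · rintro ⟨h4, h5⟩
      refine le_antisymm h5 ?_
      by_contra h6
      have := h1.1 (not_le.1 h6)
      omega

end Pool.Agent.Helper132.PermRamsey
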