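import Mathlib

set_option autoImplicit false

namespace Pool.Agent.Helper132.PermRamsey

open Finset

section levels

variable {K : ℕ}

/-- superlevel sets. -/
def lev (I : Finset (Fin K)) (A : Fin K → ℕ) (s : ℕ) : Finset (Fin K) := I.filter (fun a => s ≤ A a)

lemma mem_lev {I : Finset (Fin K)} {A : Fin K → ℕ} {s : ℕ} {a : Fin K} :
    a ∈ lev I A s ↔ a ∈ I ∧ s ≤ A a := by simp [lev]

/-- layer cake, upper bound. -/
lemma sum_lev_le (I : Finset (Fin K)) (A : Fin K → ℕ) (M : ℕ) :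
    ∑ s ∈ Icc 1 M, (lev I A s).card ≤ ∑ a ∈ I, A a := by
  have h1 : ∀ s, (lev I A s).card = ∑ a ∈ I, if s ≤ A a then 1 else 0 := by
    intro s; rw [lev, card_filter]
  simp only [h1]
  rw [sum_comm]
  refine sum_le_sum fun a _ => ?_
  rw [← card_filter]
  calc ((Icc 1 M).filter (fun s => s ≤ A a)).card ≤ (Icc 1 (A a)).card := by
        apply card_le_card
        intro s hs
        rw [mem_filter, mem_Icc] at hs
        rw [mem_Icc]
        exact ⟨hs.1.1, hs.2⟩
    _ = A a := by simp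

/-- layer cake. -/
lemma sum_lev_eq (I : Finset (Fin K)) (A : Fin K → ℕ) (M : ℕ) (hA : ∀ a ∈ I, A a ≤ M) :
    ∑ s ∈ Icc 1 M, (lev I A s).card = ∑ a ∈ I, A a := by
  have h1 : ∀ s, (lev I A s).card = ∑ a ∈ I, if s ≤ A a then 1 else 0 := by
    intro s; rw [lev, card_filter]
  simp only [h1]
  rw [sum_comm]
  refine sum_congr rfl fun a ha => ?_
  rw [← card_filter]
  have : (Icc 1 M).filter (fun s => s ≤ A a) = Icc 1 (A a) := by
    ext s
    rw [mem_filter, mem_Icc, mem_Icc]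
    have := hA a ha
    omega
  rw [this]; simp

/-- good levels. -/
def IsGood (n : ℕ) (I : Finset (Fin K)) (A : Fin K → ℕ) (s : ℕ) : Prop :=
  1024 ≤ (lev I A s).card ∧ n ≤ s * (lev I A s).card ^ 3

instance (n : ℕ) (I : Finset (Fin K)) (A : Fin K → ℕ) : DecidablePred (IsGood n I A) :=
  fun s => by unfold IsGood; infer_instance

/-- the good levels carry most of the mass. -/
lemma good_mass (n M : ℕ) (hn : 2 ^ 20 * M ≤ n) (I : Finset (Fin K)) (A : Fin K → ℕ)
    (hA : ∀ a ∈ I, A a ≤ M) (hI : n ≤ 16 * ∑ a ∈ I, A a) :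
    n ≤ 32 * ∑ s ∈ (Icc 1 M).filter (IsGood n I A), (lev I A s).card := by
  have hsplit : ∑ s ∈ Icc 1 M, (lev I A s).card
      = ∑ s ∈ (Icc 1 M).filter (IsGood n I A), (lev I A s).card
        + ∑ s ∈ (Icc 1 M).filter (fun s => ¬ IsGood n I A s), (lev I A s).card :=
    (sum_filter_add_sum_filter_not _ _ _).symm
  rw [sum_lev_eq I A M hA] at hsplit
  -- the bad part
  have hbad : (∑ s ∈ (Icc 1 M).filter (fun s => ¬ IsGood n I A s), (lev I A s).card : ℝ)
      ≤ 1024 * M + n * (1 / 1023) := by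
    have h1 : (∑ s ∈ (Icc 1 M).filter (fun s => ¬ IsGood n I A s), ((lev I A s).card : ℝ))
        ≤ ∑ s ∈ (Icc 1 M).filter (fun s => ¬ IsGood n I A s),
          (1024 + if 1024 ≤ (lev I A s).card then ((lev I A s).card : ℝ) else 0) := by
      refine sum_le_sum fun s _ => ?_
      split_ifs with h
      · linarith
      · have : (lev I A s).card ≤ 1024 := by omega
        have : ((lev I A s).card : ℝ) ≤ 1024 := by exact_mod_cast this
        linarith
    refine h1.trans ?_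
    rw [sum_add_distrib]
    refine add_le_add ?_ ?_
    · rw [sum_const, nsmul_eq_mul]
      have h2 : ((Icc 1 M).filter (fun s => ¬ IsGood n I A s)).card ≤ M := by
        refine (card_filter_le _ _).trans ?_
        simp
      have h3 : (((Icc 1 M).filter (fun s => ¬ IsGood n I A s)).card : ℝ) ≤ M := by
        exact_mod_cast h2
      linarith
    · rw [← sum_filter]
      set F := ((Icc 1 M).filter (fun s => ¬ IsGood n I A s)).filter
        (fun s => 1024 ≤ (lev I A s).card) with hF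
      have hmaps : ∀ s ∈ F, (lev I A s).card ∈ Ioc 1023 (K + 1023) := by
        intro s hs
        rw [hF, mem_filter] at hs
        rw [mem_Ioc]
        have : (lev I A s).card ≤ K := by
          refine (card_le_univ _).trans ?_
          rw [Fintype.card_fin]
        omega
      rw [← sum_fiberwise_of_maps_to hmaps]
      have h2 : ∀ m ∈ Ioc 1023 (K + 1023), ∑ s ∈ F with (lev I A s).card = m,
          ((lev I A s).card : ℝ) ≤ n * ((m : ℝ) ^ 2)⁻¹ := by
        intro m hm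
        rw [mem_Ioc] at hm
        have hm1 : 0 < m := by omega
        have hm0 : (0 : ℝ) < m := by exact_mod_cast hm1
        have h3 : ∑ s ∈ F with (lev I A s).card = m, ((lev I A s).card : ℝ)
            = ((F.filter (fun s => (lev I A s).card = m)).card : ℝ) * m := by
          rw [← nsmul_eq_mul, ← sum_const]
          refine sum_congr rfl fun s hs => ?_
          rw [mem_filter] at hs
          rw [hs.2]
        rw [h3]
        have h4 : (F.filter (fun s => (lev I A s).card = m)).card * m ^ 3 ≤ n := by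
          have h5 : (F.filter (fun s => (lev I A s).card = m)).card ≤ (Icc 1 (n / m ^ 3)).card := by
            apply card_le_card
            intro s hs
            rw [mem_filter, hF, mem_filter, mem_filter, mem_Icc, IsGood] at hs
            obtain ⟨⟨⟨⟨h6, h7⟩, h8⟩, h9⟩, h10⟩ := hs
            rw [mem_Icc]
            refine ⟨h6, ?_⟩
            rw [Nat.le_div_iff_mul_le (by positivity)]
            rw [h10] at h8
            by_contra h11
            exact h8 ⟨by omega, by omega⟩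
          rw [Nat.card_Icc, Nat.add_sub_cancel] at h5
          exact (Nat.mul_le_mul_right _ h5).trans (Nat.div_mul_le_self _ _)
        have h4' : ((F.filter (fun s => (lev I A s).card = m)).card : ℝ) * m ^ 3 ≤ n := by
          exact_mod_cast h4
        rw [← div_eq_mul_inv, le_div_iff₀ (by positivity)]
        calc _ = ((F.filter (fun s => (lev I A s).card = m)).card : ℝ) * m ^ 3 := by ring
          _ ≤ _ := h4'
      refine (sum_le_sum h2).trans ?_
      rw [← mul_sum]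
      have h6 := sum_Ioc_inv_sq_le_sub (α := ℝ) (k := 1023) (n := K + 1023) (by norm_num) (by omega)
      have h7 : (0 : ℝ) ≤ (((K + 1023 : ℕ) : ℝ))⁻¹ := by positivity
      have h8 : (∑ i ∈ Ioc 1023 (K + 1023), ((i : ℝ) ^ 2)⁻¹) ≤ 1 / 1023 := by
        refine h6.trans ?_
        norm_num at h7 ⊢
        linarith
      gcongr
  have hreal : ((∑ a ∈ I, A a : ℕ) : ℝ)
      = ((∑ s ∈ (Icc 1 M).filter (IsGood n I A), (lev I A s).card : ℕ) : ℝ)
        + ((∑ s ∈ (Icc 1 M).filter (fun s => ¬ IsGood n I A s), (lev I A s).card : ℕ) : ℝ) := by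
    exact_mod_cast hsplit
  have hbad' : ((∑ s ∈ (Icc 1 M).filter (fun s => ¬ IsGood n I A s), (lev I A s).card : ℕ) : ℝ)
      ≤ 1024 * M + n * (1 / 1023) := by exact_mod_cast hbad
  have hn' : (2 : ℝ) ^ 20 * M ≤ n := by exact_mod_cast hn
  have hI' : (n : ℝ) ≤ 16 * ((∑ a ∈ I, A a : ℕ) : ℝ) := by exact_mod_cast hI
  have hn0 : (0 : ℝ) ≤ n := Nat.cast_nonneg _
  generalize ∑ a ∈ I, A a = X at hreal hI'
  generalize ∑ s ∈ (Icc 1 M).filter (IsGood n I A), (lev I A s).card = Y at hreal ⊢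
  generalize ∑ s ∈ (Icc 1 M).filter (fun s => ¬ IsGood n I A s), (lev I A s).card = Z at hreal hbad'
  have : (n : ℝ) ≤ 32 * (Y : ℝ) := by
    norm_num at hn'
    linarith
  exact_mod_cast this

/-- the elements of small rank with respect to `g`. -/
def T (p m : ℕ) (g : Fin K → ℕ) : Finset (Fin K) :=
  univ.filter (fun j => 3 * (univ.filter (fun j' => g j ≤ g j')).card ≤ p ^ 3 * m)

lemma card_T (p m : ℕ) (g : Fin K → ℕ) : 3 * (T p m g).card ≤ p ^ 3 * m := by
  rcases (T p m g).eq_empty_or_nonempty with h | h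
  · rw [h]; simp
  · obtain ⟨j, hj, hmin⟩ := exists_min_image (T p m g) g h
    have h1 := hj
    rw [T, mem_filter] at h1
    refine le_trans (Nat.mul_le_mul_left _ (card_le_card ?_)) h1.2
    intro j' hj'
    rw [mem_filter]
    exact ⟨mem_univ _, hmin j' hj'⟩

lemma subset_T {p m : ℕ} {g : Fin K → ℕ} {C t : ℕ}
    (h : 3 * (univ.filter (fun j => t ≤ C * g j)).card ≤ p ^ 3 * m) :
    univ.filter (fun j => t ≤ C * g j) ⊆ T p m g := by
  intro j hj
  rw [mem_filter] at hj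
  rw [T, mem_filter]
  refine ⟨mem_univ _, le_trans (Nat.mul_le_mul_left _ (card_le_card ?_)) h⟩
  intro j' hj'
  rw [mem_filter] at hj' ⊢
  exact ⟨mem_univ _, hj.2.trans (Nat.mul_le_mul_left _ hj'.2)⟩

/-- The heavy rectangles of size `p × m`. -/
def heavy (n : ℕ) (w : Fin K → Fin K → ℕ) (p m : ℕ) : Finset (Finset (Fin K × Fin K)) :=
  ((powersetCard p univ ×ˢ powersetCard m univ).filter
    (fun IJ : Finset (Fin K) × Finset (Fin K) => (∃ i ∈ IJ.1, IJ.2 ⊆ T p m (w i)) ∧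
      ∀ i ∈ IJ.1, ∀ j ∈ IJ.2, n ≤ 4 * p ^ 3 * m ^ 3 * w i j)).image (fun IJ => IJ.1 ×ˢ IJ.2)

lemma mem_heavy {n : ℕ} {w : Fin K → Fin K → ℕ} {p m : ℕ} {S : Finset (Fin K × Fin K)} :
    S ∈ heavy n w p m ↔ ∃ I J : Finset (Fin K), I.card = p ∧ J.card = m ∧
      (∃ i ∈ I, J ⊆ T p m (w i)) ∧ (∀ i ∈ I, ∀ j ∈ J, n ≤ 4 * p ^ 3 * m ^ 3 * w i j) ∧
      S = I ×ˢ J := by
  simp only [heavy, mem_image, mem_filter, mem_product, mem_powersetCard, subset_univ, true_and,
    Prod.exists]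
  constructor
  · rintro ⟨I, J, ⟨⟨h1, h2⟩, h3, h4⟩, h5⟩
    exact ⟨I, J, h1, h2, h3, h4, h5.symm⟩
  · rintro ⟨I, J, h1, h2, h3, h4, h5⟩
    exact ⟨I, J, ⟨⟨h1, h2⟩, h3, h4⟩, h5.symm⟩

/-- the core of the selection. -/
lemma select_aux (n M : ℕ) (hM : 0 < M) (hn : 2 ^ 20 * M ≤ n) (w : Fin K → Fin K → ℕ)
    (hrow : ∀ i, ∑ j, w i j ≤ M) (A B : Fin K → ℕ) (I J : Finset (Fin K))
    (hB : ∀ b ∈ J, B b ≤ M) (hJ : n ≤ 16 * ∑ b ∈ J, B b)
    (hw : ∀ a ∈ I, ∀ b ∈ J, A a * B b ≤ 4 * n * w a b)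
    (s : ℕ) (hs : IsGood n I A s) (hmin : ∀ t, t ∈ Icc 1 M → IsGood n J B t →
      (lev I A s).card ≤ (lev J B t).card) :
    ∃ p m, 1024 ≤ p ∧ p ≤ m ∧ m ≤ K ∧ ∃ S ∈ heavy n w p m, S ⊆ I ×ˢ J := by
  have hn0 : 0 < n := by
    have : 0 < 2 ^ 20 * M := by positivity
    omega
  set p := (lev I A s).card with hp
  have hp1 : 1024 ≤ p := hs.1
  obtain ⟨i₀, hi₀⟩ : (lev I A s).Nonempty := by
    rw [← card_pos]; omega
  -- the key inequality
  have key : ∀ a ∈ lev I A s, ∀ b ∈ J, B b ≤ 4 * p ^ 3 * w a b := by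
    intro a ha b hb
    rw [mem_lev] at ha
    have h1 := hw a ha.1 b hb
    have h2 : n ≤ A a * p ^ 3 := hs.2.trans (Nat.mul_le_mul_right _ ha.2)
    have h3 : n * B b ≤ n * (4 * p ^ 3 * w a b) := by
      calc n * B b ≤ (A a * p ^ 3) * B b := Nat.mul_le_mul_right _ h2
        _ = (A a * B b) * p ^ 3 := by ring
        _ ≤ (4 * n * w a b) * p ^ 3 := Nat.mul_le_mul_right _ h1
        _ = n * (4 * p ^ 3 * w a b) := by ring
    exact Nat.le_of_mul_le_mul_left h3 hn0
  -- choose a level `t`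
  obtain ⟨t, ht, hgt, hcard⟩ : ∃ t ∈ Icc 1 M, IsGood n J B t ∧
      3 * (univ.filter (fun j => t ≤ 4 * p ^ 3 * w i₀ j)).card ≤ p ^ 3 * (lev J B t).card := by
    by_contra hcon
    push Not at hcon
    have h1 := good_mass n M hn J B hB hJ
    have h2 : ∑ t ∈ Icc 1 M, (lev univ (fun j => 4 * p ^ 3 * w i₀ j) t).card
        ≤ ∑ j, 4 * p ^ 3 * w i₀ j := sum_lev_le _ _ _
    rw [← mul_sum] at h2
    have h3 : 4 * p ^ 3 * ∑ j, w i₀ j ≤ 4 * p ^ 3 * M := Nat.mul_le_mul_left _ (hrow i₀)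
    have h4 : ∑ t ∈ (Icc 1 M).filter (IsGood n J B), p ^ 3 * (lev J B t).card
        ≤ ∑ t ∈ (Icc 1 M).filter (IsGood n J B),
          3 * (lev univ (fun j => 4 * p ^ 3 * w i₀ j) t).card := by
      refine sum_le_sum fun t ht => ?_
      rw [mem_filter] at ht
      exact (hcon t ht.1 ht.2).le
    have h5 : ∑ t ∈ (Icc 1 M).filter (IsGood n J B),
          3 * (lev univ (fun j => 4 * p ^ 3 * w i₀ j) t).card
        ≤ ∑ t ∈ Icc 1 M, 3 * (lev univ (fun j => 4 * p ^ 3 * w i₀ j) t).card :=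
      sum_le_sum_of_subset (filter_subset _ _)
    rw [← mul_sum] at h4
    have hp3 : 0 < p ^ 3 := by positivity
    have h6 : p ^ 3 * ∑ t ∈ (Icc 1 M).filter (IsGood n J B), (lev J B t).card
        ≤ p ^ 3 * (12 * M) := by
      calc _ ≤ _ := h4
        _ ≤ _ := h5
        _ = 3 * ∑ t ∈ Icc 1 M, (lev univ (fun j => 4 * p ^ 3 * w i₀ j) t).card := by
            rw [mul_sum]
        _ ≤ 3 * (4 * p ^ 3 * M) := Nat.mul_le_mul_left _ (h2.trans h3)
        _ = _ := by ring
    have h7 := Nat.le_of_mul_le_mul_left h6 hp3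
    have h8 : n ≤ 384 * M := by omega
    norm_num at hn
    omega
  set m := (lev J B t).card with hm
  have hpm : p ≤ m := hmin t ht hgt
  refine ⟨p, m, hp1, hpm, ?_, (lev I A s) ×ˢ (lev J B t), ?_, ?_⟩
  · rw [hm]
    refine (card_le_univ _).trans ?_
    rw [Fintype.card_fin]
  · rw [mem_heavy]
    refine ⟨_, _, hp.symm, hm.symm, ⟨i₀, hi₀, ?_⟩, ?_, rfl⟩
    · refine subset_trans ?_ (subset_T hcard)
      intro j hj
      rw [mem_lev] at hj
      rw [mem_filter]
      exact ⟨mem_univ _, hj.2.trans (key i₀ hi₀ j hj.1)⟩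
    · intro i hi j hj
      rw [mem_lev] at hj
      calc n ≤ t * m ^ 3 := hgt.2
        _ ≤ B j * m ^ 3 := Nat.mul_le_mul_right _ hj.2
        _ ≤ (4 * p ^ 3 * w i j) * m ^ 3 := Nat.mul_le_mul_right _ (key i hi j hj.1)
        _ = _ := by ring
  · exact product_subset_product (filter_subset _ _) (filter_subset _ _)

/-- selection: a rectangle with large weights contains a heavy rectangle, up to transposition. -/
lemma select (n M : ℕ) (hM : 0 < M) (hn : 2 ^ 20 * M ≤ n) (w : Fin K → Fin K → ℕ)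
    (hrow : ∀ i, ∑ j, w i j ≤ M) (hcol : ∀ j, ∑ i, w i j ≤ M) (A B : Fin K → ℕ)
    (I J : Finset (Fin K))
    (hA : ∀ a ∈ I, A a ≤ M) (hB : ∀ b ∈ J, B b ≤ M)
    (hI : n ≤ 16 * ∑ a ∈ I, A a) (hJ : n ≤ 16 * ∑ b ∈ J, B b)
    (hw : ∀ a ∈ I, ∀ b ∈ J, A a * B b ≤ 4 * n * w a b) :
    ∃ p m, 1024 ≤ p ∧ p ≤ m ∧ m ≤ K ∧ ((∃ S ∈ heavy n w p m, S ⊆ I ×ˢ J) ∨
      (∃ S ∈ heavy n (fun i j => w j i) p m, S ⊆ J ×ˢ I)) := by
  have hn0 : 0 < n := by
    have : 0 < 2 ^ 20 * M := by positivity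
    omega
  have gA : ((Icc 1 M).filter (IsGood n I A)).Nonempty := by
    rw [nonempty_iff_ne_empty]
    intro h
    have := good_mass n M hn I A hA hI
    rw [h] at this
    simp at this
    omega
  have gB : ((Icc 1 M).filter (IsGood n J B)).Nonempty := by
    rw [nonempty_iff_ne_empty]
    intro h
    have := good_mass n M hn J B hB hJ
    rw [h] at this
    simp at this
    omega
  obtain ⟨s, hs, hsmin⟩ := exists_min_image _ (fun s => (lev I A s).card) gA
  obtain ⟨t, ht, htmin⟩ := exists_min_image _ (fun s => (lev J B s).card) gB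
  rw [mem_filter] at hs ht
  rcases le_total (lev I A s).card (lev J B t).card with h | h
  · obtain ⟨p, m, h1, h2, h3, h4⟩ := select_aux n M hM hn w hrow A B I J hB hJ hw s hs.2
      (fun t' ht' hgt' => h.trans (htmin t' (mem_filter.2 ⟨ht', hgt'⟩)))
    exact ⟨p, m, h1, h2, h3, Or.inl h4⟩
  · obtain ⟨p, m, h1, h2, h3, h4⟩ := select_aux n M hM hn (fun i j => w j i) hcol B A J I hA
      hI (fun a ha b hb => by rw [mul_comm (B a)]; exact hw b hb a ha) t ht.2
      (fun t' ht' hgt' => h.trans (hsmin t' (mem_filter.2 ⟨ht', hgt'⟩)))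
    exact ⟨p, m, h1, h2, h3, Or.inr h4⟩

end levels

end Pool.Agent.Helper132.PermRamsey
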