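import Pool.Agent.Helper132.TwoCol
import Pool.Agent.Helper132.Select
import Pool.Agent.Helper132.Mono

set_option autoImplicit false
set_option linter.constructorNameAsVariable false

namespace Pool.Agent.Helper132.PermRamsey

open Finset

lemma pow_self_le (m : ℕ) : m ^ m ≤ 3 ^ m * m.factorial := by
  have h1 := Real.pow_div_factorial_le_exp (x := (m : ℝ)) (Nat.cast_nonneg m) m
  have h2 : Real.exp (m : ℝ) ≤ 3 ^ m := by
    have h3 : Real.exp 1 ≤ 3 := by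
      have := Real.exp_one_lt_d9
      linarith
    calc Real.exp (m : ℝ) = Real.exp 1 ^ m := by rw [← Real.exp_nat_mul]; simp
      _ ≤ 3 ^ m := pow_le_pow_left₀ (Real.exp_pos _).le h3 m
  have h4 : (0 : ℝ) < m.factorial := by exact_mod_cast Nat.factorial_pos m
  rw [div_le_iff₀ h4] at h1
  have h5 : ((m ^ m : ℕ) : ℝ) ≤ ((3 ^ m * m.factorial : ℕ) : ℝ) := by
    push_cast
    refine h1.trans ?_
    gcongr
  exact_mod_cast h5

lemma choose_mul_fact_le (a m : ℕ) : a.choose m * m.factorial ≤ a ^ m := by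
  rw [mul_comm, ← Nat.descFactorial_eq_factorial_mul_choose]
  exact Nat.descFactorial_le_pow a m

/-- `C(a, m) ≤ q ^ m` when `3 a ≤ q m`. -/
lemma choose_le {a q m : ℕ} (h : 3 * a ≤ q * m) : a.choose m ≤ q ^ m := by
  have h1 := choose_mul_fact_le a m
  have h2 := pow_self_le m
  have h3 : (3 * a) ^ m ≤ (q * m) ^ m := Nat.pow_le_pow_left h m
  rw [mul_pow, mul_pow] at h3
  have h4 : 0 < 3 ^ m * m.factorial := by positivity
  refine Nat.le_of_mul_le_mul_right ?_ h4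
  calc a.choose m * (3 ^ m * m.factorial) = 3 ^ m * (a.choose m * m.factorial) := by ring
    _ ≤ 3 ^ m * a ^ m := Nat.mul_le_mul_left _ h1
    _ ≤ q ^ m * m ^ m := h3
    _ ≤ q ^ m * (3 ^ m * m.factorial) := Nat.mul_le_mul_left _ h2

lemma heavy_card {K : ℕ} {n : ℕ} {w : Fin K → Fin K → ℕ} {p m : ℕ}
    {S : Finset (Fin K × Fin K)} (hS : S ∈ heavy n w p m) : S.card = p * m := by
  obtain ⟨I, J, h1, h2, _, _, rfl⟩ := mem_heavy.1 hS
  rw [card_product, h1, h2]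

lemma heavy_count {K : ℕ} (n M : ℕ) (hM : 0 < M) (hn : 2 ^ 20 * M ≤ n) (w : Fin K → Fin K → ℕ)
    (hcol : ∀ j, ∑ i, w i j ≤ M) (p m : ℕ) (hpm : p ≤ m) (c : Fin K × Fin K) :
    ((heavy n w p m).filter (c ∈ ·)).card ≤ m ^ (6 * p + 6) * p ^ (3 * m) := by
  set Nb : Finset (Fin K) := univ.filter (fun i => n ≤ 4 * p ^ 3 * m ^ 3 * w i c.2) with hNb
  have hcardNb : Nb.card ≤ m ^ 6 := by
    have h1 : Nb.card * n ≤ 4 * p ^ 3 * m ^ 3 * M := by
      calc Nb.card * n = ∑ i ∈ Nb, n := by rw [sum_const, smul_eq_mul]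
        _ ≤ ∑ i ∈ Nb, 4 * p ^ 3 * m ^ 3 * w i c.2 := by
            refine sum_le_sum fun i hi => ?_
            rw [hNb, mem_filter] at hi
            exact hi.2
        _ ≤ ∑ i, 4 * p ^ 3 * m ^ 3 * w i c.2 := sum_le_sum_of_subset (subset_univ _)
        _ = 4 * p ^ 3 * m ^ 3 * ∑ i, w i c.2 := by rw [mul_sum]
        _ ≤ _ := Nat.mul_le_mul_left _ (hcol _)
    have h2 : Nb.card * 2 ^ 20 * M ≤ 4 * p ^ 3 * m ^ 3 * M := by
      refine le_trans ?_ h1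
      rw [mul_assoc]
      exact Nat.mul_le_mul_left _ hn
    have h3 := Nat.le_of_mul_le_mul_right h2 hM
    have h4 : p ^ 3 * m ^ 3 ≤ m ^ 3 * m ^ 3 := Nat.mul_le_mul_right _ (Nat.pow_le_pow_left hpm 3)
    have h5 : m ^ 6 = m ^ 3 * m ^ 3 := by ring
    rw [h5]
    have h6 : 4 * p ^ 3 * m ^ 3 = 4 * (p ^ 3 * m ^ 3) := by ring
    rw [h6] at h3
    norm_num at h3
    omega
  have hsub : (heavy n w p m).filter (c ∈ ·) ⊆ Nb.biUnion (fun i =>
      (powersetCard p Nb ×ˢ powersetCard m (T p m (w i))).image (fun IJ => IJ.1 ×ˢ IJ.2)) := by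
    intro S hS
    rw [mem_filter] at hS
    obtain ⟨I, J, h1, h2, ⟨i, hi, hJ⟩, h4, rfl⟩ := mem_heavy.1 hS.1
    have hc := hS.2
    rw [mem_product] at hc
    have hINb : I ⊆ Nb := by
      intro i' hi'
      rw [hNb, mem_filter]
      exact ⟨mem_univ _, h4 i' hi' c.2 hc.2⟩
    rw [mem_biUnion]
    refine ⟨i, hINb hi, ?_⟩
    rw [mem_image]
    refine ⟨(I, J), ?_, rfl⟩
    rw [mem_product, mem_powersetCard, mem_powersetCard]
    exact ⟨⟨hINb, h1⟩, hJ, h2⟩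
  calc _ ≤ _ := card_le_card hsub
    _ ≤ ∑ i ∈ Nb, ((powersetCard p Nb ×ˢ powersetCard m (T p m (w i))).image
          (fun IJ => IJ.1 ×ˢ IJ.2)).card := card_biUnion_le
    _ ≤ ∑ i ∈ Nb, (m ^ 6) ^ p * (p ^ 3) ^ m := by
        refine sum_le_sum fun i _ => ?_
        refine card_image_le.trans ?_
        rw [card_product, card_powersetCard, card_powersetCard]
        refine Nat.mul_le_mul ?_ ?_
        · exact (Nat.choose_le_pow _ _).trans (Nat.pow_le_pow_left hcardNb _)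
        · exact choose_le (card_T _ _ _)
    _ = Nb.card * ((m ^ 6) ^ p * (p ^ 3) ^ m) := by rw [sum_const, smul_eq_mul]
    _ ≤ m ^ 6 * ((m ^ 6) ^ p * (p ^ 3) ^ m) := Nat.mul_le_mul_right _ hcardNb
    _ = _ := by
        rw [← pow_mul, ← pow_mul, pow_add]
        ring

lemma pow32 (x : ℕ) (hx : 1024 ≤ x) : x ^ 32 ≤ 2 ^ x := by
  induction x, hx using Nat.le_induction with
  | base =>
    have e : (1024 : ℕ) = 2 ^ 10 := by norm_num
    calc (1024 : ℕ) ^ 32 = (2 ^ 10) ^ 32 := by rw [← e]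
      _ = 2 ^ 320 := by rw [← pow_mul]
      _ ≤ 2 ^ 1024 := Nat.pow_le_pow_right (by norm_num) (by norm_num)
  | succ x hx ih =>
    have h1 : (x + 1) * 1024 ≤ 1025 * x := by omega
    have h2 : ((x + 1) * 1024) ^ 32 ≤ (1025 * x) ^ 32 := Nat.pow_le_pow_left h1 32
    rw [mul_pow, mul_pow] at h2
    have h3 : (1025 : ℕ) ^ 32 ≤ 2 * 1024 ^ 32 := by norm_num
    have h4 : (x + 1) ^ 32 * 1024 ^ 32 ≤ (2 * x ^ 32) * 1024 ^ 32 := by
      calc _ ≤ _ := h2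
        _ ≤ (2 * 1024 ^ 32) * x ^ 32 := Nat.mul_le_mul_right _ h3
        _ = _ := by ring
    have h5 := Nat.le_of_mul_le_mul_right h4 (by positivity)
    rw [pow_succ 2 x]
    omega

lemma numeric (p m : ℕ) (hp : 1024 ≤ p) (hpm : p ≤ m) :
    ((m ^ (6 * p + 6) * p ^ (3 * m) : ℕ) : ℝ) * (2 / 3 : ℝ) ^ (p * m - 1) ≤ (1 / 2) ^ (p + m) := by
  have hm : 1024 ≤ m := hp.trans hpm
  have hpm1 : 1 ≤ p * m := Nat.mul_pos (by omega) (by omega)
  -- integer inequality, 32nd powers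
  have h1 : (m ^ (6 * p + 6) * p ^ (3 * m)) ^ 32 ≤ 2 ^ (m * (6 * p + 6) + p * (3 * m)) := by
    calc (m ^ (6 * p + 6) * p ^ (3 * m)) ^ 32
        = (m ^ 32) ^ (6 * p + 6) * (p ^ 32) ^ (3 * m) := by
          rw [mul_pow, ← pow_mul, ← pow_mul, ← pow_mul, ← pow_mul]
          ring_nf
      _ ≤ (2 ^ m) ^ (6 * p + 6) * (2 ^ p) ^ (3 * m) :=
          Nat.mul_le_mul (Nat.pow_le_pow_left (pow32 m hm) _) (Nat.pow_le_pow_left (pow32 p hp) _)
      _ = _ := by rw [← pow_mul, ← pow_mul, ← pow_add]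
  have h1' : ((m ^ (6 * p + 6) * p ^ (3 * m) : ℕ) : ℝ) ^ 32
      ≤ 2 ^ (m * (6 * p + 6) + p * (3 * m)) := by exact_mod_cast h1
  set X : ℝ := ((m ^ (6 * p + 6) * p ^ (3 * m) : ℕ) : ℝ) with hX
  have hX0 : 0 ≤ X := Nat.cast_nonneg _
  have h2 : (2 / 3 : ℝ) ^ (p * m - 1) ≤ (3 / 2) * (2 / 3 : ℝ) ^ (p * m) := by
    obtain ⟨q, hq⟩ : ∃ q, p * m = q + 1 := ⟨p * m - 1, by omega⟩
    rw [hq, Nat.add_sub_cancel, pow_succ]
    apply le_of_eq; ring
  have hY : (X * (2 / 3 : ℝ) ^ (p * m - 1)) ^ 32 ≤ ((1 / 2) ^ (p + m)) ^ 32 := by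
    have h3 : (X * (2 / 3 : ℝ) ^ (p * m - 1)) ^ 32 ≤ (X * ((3 / 2) * (2 / 3 : ℝ) ^ (p * m))) ^ 32 := by
      gcongr
    refine h3.trans ?_
    have h4 : (X * ((3 / 2) * (2 / 3 : ℝ) ^ (p * m))) ^ 32
        = X ^ 32 * ((3 / 2) ^ 32 * ((2 / 3 : ℝ) ^ 2) ^ (16 * (p * m))) := by
      rw [mul_pow, mul_pow, ← pow_mul, ← pow_mul]
      ring_nf
    rw [h4]
    have h5 : ((2 / 3 : ℝ) ^ 2) ^ (16 * (p * m)) ≤ (1 / 2) ^ (16 * (p * m)) :=
      pow_le_pow_left₀ (by norm_num) (by norm_num) _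
    have h6 : (3 / 2 : ℝ) ^ 32 ≤ 2 ^ 32 := by norm_num
    have h7 : X ^ 32 * ((3 / 2) ^ 32 * ((2 / 3 : ℝ) ^ 2) ^ (16 * (p * m)))
        ≤ 2 ^ (m * (6 * p + 6) + p * (3 * m)) * (2 ^ 32 * (1 / 2) ^ (16 * (p * m))) := by
      gcongr
    refine h7.trans ?_
    rw [← pow_mul]
    -- exponents
    have h8 : m * (6 * p + 6) + p * (3 * m) + 32 + (p + m) * 32 ≤ 16 * (p * m) := by
      nlinarith
    obtain ⟨e, he⟩ := Nat.exists_eq_add_of_le h8
    rw [he]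
    have h9 : (2 : ℝ) ^ (m * (6 * p + 6) + p * (3 * m)) * (2 ^ 32 *
        (1 / 2) ^ (m * (6 * p + 6) + p * (3 * m) + 32 + (p + m) * 32 + e))
        = (1 / 2) ^ ((p + m) * 32) * (1 / 2) ^ e := by
      rw [pow_add _ _ e, pow_add _ _ ((p + m) * 32), pow_add _ _ 32]
      have e1 : ∀ k : ℕ, (2 : ℝ) ^ k * (1 / 2) ^ k = 1 := by
        intro k; rw [← mul_pow]; norm_num
      calc _ = ((2 : ℝ) ^ (m * (6 * p + 6) + p * (3 * m)) *
            (1 / 2) ^ (m * (6 * p + 6) + p * (3 * m))) * (2 ^ 32 * (1 / 2) ^ 32) *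
            ((1 / 2) ^ ((p + m) * 32) * (1 / 2) ^ e) := by ring
        _ = _ := by rw [e1, e1]; ring
    rw [h9]
    have h10 : (1 / 2 : ℝ) ^ e ≤ 1 := pow_le_one₀ (by norm_num) (by norm_num)
    have h11 : (0 : ℝ) ≤ (1 / 2) ^ ((p + m) * 32) := by positivity
    nlinarith
  exact le_of_pow_le_pow_left₀ (by norm_num) (by positivity) hY

/-- all heavy rectangles. -/
def heavyAll {K : ℕ} (n : ℕ) (w : Fin K → Fin K → ℕ) : Finset (Finset (Fin K × Fin K)) :=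
  ((Icc 1024 K) ×ˢ (Icc 1024 K)).biUnion (fun pm => if pm.1 ≤ pm.2 then heavy n w pm.1 pm.2 else ∅)

lemma mem_heavyAll {K : ℕ} {n : ℕ} {w : Fin K → Fin K → ℕ} {S : Finset (Fin K × Fin K)} :
    S ∈ heavyAll n w ↔ ∃ p m, 1024 ≤ p ∧ p ≤ m ∧ m ≤ K ∧ S ∈ heavy n w p m := by
  rw [heavyAll, mem_biUnion]
  constructor
  · rintro ⟨⟨p, m⟩, h1, h2⟩
    rw [mem_product, mem_Icc, mem_Icc] at h1
    simp only at h1 h2
    split_ifs at h2 with h3
    · exact ⟨p, m, h1.1.1, h3, h1.2.2, h2⟩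
    · simp at h2
  · rintro ⟨p, m, h1, h2, h3, h4⟩
    refine ⟨(p, m), ?_, ?_⟩
    · rw [mem_product, mem_Icc, mem_Icc]
      simp only
      omega
    · simp only
      rw [if_pos h2]; exact h4

lemma geom_small (K : ℕ) : ∑ p ∈ Icc 1024 K, (1 / 2 : ℝ) ^ p ≤ 1 / 4 := by
  have h1 : Icc 1024 K = Ico 1024 (K + 1) := by
    ext x; simp only [mem_Icc, mem_Ico]; omega
  rw [h1]
  refine (geom_sum_Ico_le_of_lt_one (by norm_num) (by norm_num)).trans ?_
  have h2 : (1 / 2 : ℝ) ^ 1024 ≤ (1 / 2) ^ 3 :=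
    pow_le_pow_of_le_one (by norm_num) (by norm_num) (by norm_num)
  rw [div_le_iff₀ (by norm_num)]
  refine h2.trans ?_
  norm_num

lemma sparse_heavyAll {K : ℕ} (n M : ℕ) (hM : 0 < M) (hn : 2 ^ 20 * M ≤ n)
    (w : Fin K → Fin K → ℕ) (hcol : ∀ j, ∑ i, w i j ≤ M) : Sparse (heavyAll n w) (1 / 16) := by
  have h := Sparse.biUnion ((Icc 1024 K) ×ˢ (Icc 1024 K))
    (fun pm => if pm.1 ≤ pm.2 then heavy n w pm.1 pm.2 else ∅)
    (fun pm => (1 / 2 : ℝ) ^ pm.1 * (1 / 2) ^ pm.2) ?_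
  · refine Sparse.mono h (subset_refl _) ?_
    rw [sum_product]
    simp only
    rw [← sum_mul_sum]
    have h1 := geom_small K
    have h2 : (0 : ℝ) ≤ ∑ p ∈ Icc 1024 K, (1 / 2 : ℝ) ^ p := sum_nonneg fun _ _ => by positivity
    nlinarith
  · rintro ⟨p, m⟩ hpm
    rw [mem_product, mem_Icc, mem_Icc] at hpm
    simp only at hpm ⊢
    split_ifs with h3
    · refine Sparse.of_card (m ^ (6 * p + 6) * p ^ (3 * m)) (p * m)
        (fun S hS => (heavy_card hS).ge) (fun c => ?_) ?_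
      · exact heavy_count n M hM hn w hcol p m h3 c
      · rw [← pow_add]
        exact numeric p m hpm.1.1 h3
    · intro c
      simp only [filter_empty, sum_empty]
      positivity

lemma Sparse.swap {K : ℕ} {𝒮 : Finset (Finset (Fin K × Fin K))} {ε : ℝ} (h : Sparse 𝒮 ε) :
    Sparse (𝒮.image (fun S => S.image Prod.swap)) ε := by
  intro c
  have hinj : Function.Injective (fun S : Finset (Fin K × Fin K) => S.image Prod.swap) :=
    image_injective Prod.swap_injective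
  refine le_trans (le_of_eq ?_) (h c.swap)
  rw [filter_image, sum_image hinj.injOn]
  refine sum_congr ?_ fun S _ => ?_
  · ext S
    rw [mem_filter, mem_filter]
    refine and_congr_right fun _ => ?_
    rw [mem_image]
    constructor
    · rintro ⟨x, hx, rfl⟩
      simpa using hx
    · intro hx
      exact ⟨_, hx, by simp⟩
  · rw [card_image_of_injective _ Prod.swap_injective]

end Pool.Agent.Helper132.PermRamsey
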