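import Mathlib

open MvPolynomial

namespace Pool.Agent.Helper132

variable {K : Type*} [Field K] {n : ℕ}

/-- The translate `f(X + p)` of a polynomial `f`. -/
noncomputable def shift (p : Fin n → K) : MvPolynomial (Fin n) K →ₐ[K] MvPolynomial (Fin n) K :=
  aeval (fun j => X j + C (p j))

/-- The universal translate at the `i`-th of a family of points with indeterminate coordinates. -/
noncomputable def ushift {ι : Type*} (i : ι) :
    MvPolynomial (Fin n) K →+* MvPolynomial (Fin n) (MvPolynomial (ι × Fin n) K) :=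
  eval₂Hom (C.comp C) (fun j => X j + C (X (i, j)))

theorem map_ushift {ι : Type*} (v : ι → Fin n → K) (i : ι) (f : MvPolynomial (Fin n) K) :
    map (eval (fun q : ι × Fin n => v q.1 q.2)) (ushift i f) = shift (v i) f := by
  induction f using MvPolynomial.induction_on with
  | C a => simp [ushift, shift, algebraMap_eq]
  | add p q hp hq => simp only [map_add, hp, hq]
  | mul_X p j hp => simp only [map_mul, hp]; simp [ushift, shift]

theorem semicont {ι : Type*} {κ : Type*} [Fintype κ] (T : Finset (Fin n →₀ ℕ))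
    (pt : κ → ι) (s : κ → (Fin n →₀ ℕ)) (v0 : ι → Fin n → K)
    (h0 : ∀ f : MvPolynomial (Fin n) K, f.support ⊆ T →
      (∀ c, coeff (s c) (shift (v0 (pt c)) f) = 0) → f = 0) :
    ∃ M : MvPolynomial (ι × Fin n) K, eval (fun q => v0 q.1 q.2) M ≠ 0 ∧
      ∀ v : ι → Fin n → K, eval (fun q => v q.1 q.2) M ≠ 0 →
        ∀ f : MvPolynomial (Fin n) K, f.support ⊆ T →
          (∀ c, coeff (s c) (shift (v (pt c)) f) = 0) → f = 0 := by
  classical
  let A : Matrix κ T (MvPolynomial (ι × Fin n) K) :=
    fun c t => coeff (s c) (ushift (pt c) (monomial (t : Fin n →₀ ℕ) (1 : K)))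
  let ev : (ι → Fin n → K) → (MvPolynomial (ι × Fin n) K →+* K) :=
    fun v => eval (fun q => v q.1 q.2)
  let P : (T → K) → MvPolynomial (Fin n) K := fun x => ∑ t : T, monomial (t : Fin n →₀ ℕ) (x t)
  have hA : ∀ v c t, ev v (A c t) = coeff (s c) (shift (v (pt c)) (monomial (t : Fin n →₀ ℕ) 1)) := by
    intro v c t
    rw [← map_ushift, coeff_map]
  have key : ∀ v (x : T → K) c, ((A.map (ev v)).mulVec x) c = coeff (s c) (shift (v (pt c)) (P x)) := by
    intro v x c
    simp only [Matrix.mulVec, dotProduct, Matrix.map_apply, hA, P, map_sum, coeff_sum]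
    refine Finset.sum_congr rfl fun t _ => ?_
    have : monomial (t : Fin n →₀ ℕ) (x t) = (x t) • monomial (t : Fin n →₀ ℕ) (1 : K) := by
      rw [smul_monomial, smul_eq_mul, mul_one]
    rw [this, map_smul, coeff_smul, smul_eq_mul, mul_comm]
  have hPs : ∀ x, (P x).support ⊆ T := by
    intro x m hm
    by_contra hmT
    apply (mem_support_iff.mp hm)
    simp only [P, coeff_sum, coeff_monomial]
    refine Finset.sum_eq_zero fun t _ => ?_
    rw [if_neg]
    rintro rfl
    exact hmT t.2
  have hPc : ∀ x (t : T), coeff (t : Fin n →₀ ℕ) (P x) = x t := by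
    intro x t
    simp only [P, coeff_sum, coeff_monomial]
    rw [Finset.sum_eq_single t]
    · simp
    · intro b _ hb
      rw [if_neg]
      intro h
      exact hb (Subtype.ext h)
    · simp
  have hPf : ∀ f : MvPolynomial (Fin n) K, f.support ⊆ T → P (fun t => coeff (t : Fin n →₀ ℕ) f) = f := by
    intro f hf
    ext m
    by_cases hm : m ∈ T
    · exact hPc _ ⟨m, hm⟩
    · rw [notMem_support_iff.mp (fun h => hm (hPs _ h)), notMem_support_iff.mp (fun h => hm (hf h))]
  have inj0 : Function.Injective (Matrix.mulVecLin (A.map (ev v0))) := by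
    rw [injective_iff_map_eq_zero]
    intro x hx
    have h1 : P x = 0 := by
      refine h0 _ (hPs x) fun c => ?_
      rw [← key]
      exact congrFun hx c
    ext t
    rw [← hPc x t, h1]
    simp
  obtain ⟨L, hL⟩ := LinearMap.exists_leftInverse_of_injective _ (LinearMap.ker_eq_bot.mpr inj0)
  let L' : Matrix T κ K := LinearMap.toMatrix' L
  let LC : Matrix T κ (MvPolynomial (ι × Fin n) K) := fun i j => C (L' i j)
  let D : Matrix T T (MvPolynomial (ι × Fin n) K) := LC * A
  have hL' : L' * (A.map (ev v0)) = 1 := by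
    have h := congrArg LinearMap.toMatrix' hL
    rw [LinearMap.toMatrix'_comp, LinearMap.toMatrix'_id] at h
    rw [← h]
    congr 1
    exact (LinearMap.toMatrix'_toLin' _).symm
  have hD : ∀ v, (ev v) D.det = (L' * (A.map (ev v))).det := by
    intro v
    rw [RingHom.map_det]
    congr 1
    ext i j
    change (ev v) ((LC * A) i j) = (L' * A.map (ev v)) i j
    rw [Matrix.mul_apply, Matrix.mul_apply, map_sum]
    refine Finset.sum_congr rfl fun k _ => ?_
    simp [LC, ev]
  refine ⟨D.det, ?_, ?_⟩
  · have h1 := hD v0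
    rw [hL', Matrix.det_one] at h1
    change (ev v0) D.det ≠ 0
    rw [h1]
    exact one_ne_zero
  · intro v hv f hf hc
    have hv' : (L' * (A.map (ev v))).det ≠ 0 := by
      rw [← hD v]
      exact hv
    have h3 : (A.map (ev v)).mulVec (fun t : T => coeff (t : Fin n →₀ ℕ) f) = 0 := by
      ext c
      rw [key, hPf f hf, hc c]
      rfl
    have h4 : (L' * (A.map (ev v))).mulVec (fun t : T => coeff (t : Fin n →₀ ℕ) f) = 0 := by
      rw [← Matrix.mulVec_mulVec, h3, Matrix.mulVec_zero]
    have h5 := Matrix.eq_zero_of_mulVec_eq_zero hv' h4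
    rw [← hPf f hf, h5]
    simp [P]

theorem coeff_shift_monomial (p : Fin n → K) (t s : Fin n →₀ ℕ) (c : K) :
    coeff s (shift p (monomial t c)) =
      c * ∏ j, ((Nat.choose (t j) (s j) : ℕ) : K) * p j ^ (t j - s j) := by
  classical
  have h1 : shift p (monomial t c) = C c * ∏ j, (X j + C (p j)) ^ (t j) := by
    rw [shift, aeval_monomial, Finsupp.prod_fintype _ _ (fun i => pow_zero _), algebraMap_eq]
  have h2 : ∀ j : Fin n, (X j + C (p j) : MvPolynomial (Fin n) K) ^ (t j) =
      ∑ i ∈ Finset.range (t j + 1), X j ^ i * C (p j ^ (t j - i) * (Nat.choose (t j) i : ℕ)) := by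
    intro j
    rw [add_pow]
    refine Finset.sum_congr rfl fun i _ => ?_
    simp only [map_mul, map_pow, map_natCast]
    ring
  have h3 : ∏ j, (X j + C (p j) : MvPolynomial (Fin n) K) ^ (t j) =
      ∑ g ∈ Fintype.piFinset (fun j => Finset.range (t j + 1)),
        monomial (Finsupp.equivFunOnFinite.symm g)
          (∏ j, (p j ^ (t j - g j) * (Nat.choose (t j) (g j) : ℕ))) := by
    rw [Finset.prod_congr rfl (fun j _ => h2 j), Finset.prod_univ_sum]
    refine Finset.sum_congr rfl fun g _ => ?_
    rw [Finset.prod_mul_distrib, ← map_prod]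
    have : ∏ i, (X i : MvPolynomial (Fin n) K) ^ g i
        = monomial (Finsupp.equivFunOnFinite.symm g) (1 : K) := by
      rw [monomial_eq, Finsupp.prod_fintype _ _ (fun i => pow_zero _)]
      simp
    rw [this, mul_comm, C_mul_monomial, mul_one]
  rw [h1, coeff_C_mul, h3, coeff_sum]
  congr 1
  simp only [coeff_monomial]
  by_cases hs : ∀ j, s j ≤ t j
  · rw [Finset.sum_eq_single (s : Fin n → ℕ)]
    · rw [if_pos (by ext; simp)]
      refine Finset.prod_congr rfl fun j _ => mul_comm _ _
    · intro g _ hg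
      rw [if_neg]
      intro h
      apply hg
      rw [← h]
      ext; simp
    · intro h
      exfalso
      apply h
      rw [Fintype.mem_piFinset]
      intro j
      exact Finset.mem_range.mpr (Nat.lt_succ_of_le (hs j))
  · push_neg at hs
    obtain ⟨j, hj⟩ := hs
    rw [Finset.prod_eq_zero (Finset.mem_univ j), Finset.sum_eq_zero]
    · intro g hg
      rw [if_neg]
      rintro rfl
      have := Finset.mem_range.mp ((Fintype.mem_piFinset.mp hg) j)
      simp at hj
      omega
    · rw [Nat.choose_eq_zero_of_lt hj]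
      simp

theorem coeff_shift_of_support (p : Fin n → K) (T : Finset (Fin n →₀ ℕ)) (s : Fin n →₀ ℕ)
    (f : MvPolynomial (Fin n) K) (hf : f.support ⊆ T) :
    coeff s (shift p f) = ∑ t ∈ T, coeff t f *
      ∏ j, ((Nat.choose (t j) (s j) : ℕ) : K) * p j ^ (t j - s j) := by
  classical
  conv_lhs => rw [f.as_sum, map_sum, coeff_sum]
  rw [Finset.sum_subset hf]
  · exact Finset.sum_congr rfl fun t _ => coeff_shift_monomial p t s _
  · intro t _ ht
    rw [notMem_support_iff.mp ht]
    simp

theorem coeff_shift_eq_zero_of_mem_pow (p : Fin n → K) (I : Ideal (MvPolynomial (Fin n) K))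
    (hI : I ≤ Ideal.span (Set.range fun j => (X j - C (p j) : MvPolynomial (Fin n) K)))
    (m : ℕ) (f : MvPolynomial (Fin n) K) (hf : f ∈ I ^ m) (s : Fin n →₀ ℕ)
    (hs : s.degree < m) : coeff s (shift p f) = 0 := by
  have h1 : Ideal.map (shift p) (Ideal.span (Set.range fun j => (X j - C (p j) : MvPolynomial (Fin n) K)))
      ≤ idealOfVars (Fin n) K := by
    rw [Ideal.map_span, Ideal.span_le]
    rintro _ ⟨_, ⟨j, rfl⟩, rfl⟩
    simp only [shift, map_sub, aeval_X, algHom_C, algebraMap_eq, add_sub_cancel_right]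
    exact Ideal.subset_span ⟨j, rfl⟩
  have h2 : shift p f ∈ idealOfVars (Fin n) K ^ m := by
    have h3 : shift p f ∈ Ideal.map (shift p) (I ^ m) := Ideal.mem_map_of_mem _ hf
    rw [Ideal.map_pow] at h3
    exact Ideal.pow_right_mono ((Ideal.map_mono hI).trans h1) m h3
  exact (mem_pow_idealOfVars_iff' m _).mp h2 s hs

end Pool.Agent.Helper132
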