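import Mathlib

set_option autoImplicit false

namespace Pool.Agent.Helper132.PermRamsey

open Finset

section TwoCol

variable {V : Type*} [DecidableEq V]

/-- Sets `R ⊆ U` such that no member `S ⊆ U` of the family is contained in `R` or disjoint
from `R`. -/
def cols (𝒮 : Finset (Finset V)) (U : Finset V) : Finset (Finset V) :=
  U.powerset.filter (fun R => ∀ S ∈ 𝒮, S ⊆ U → ¬ S ⊆ R ∧ ¬ Disjoint S R)

lemma mem_cols {𝒮 : Finset (Finset V)} {U R : Finset V} :
    R ∈ cols 𝒮 U ↔ R ⊆ U ∧ ∀ S ∈ 𝒮, S ⊆ U → ¬ S ⊆ R ∧ ¬ Disjoint S R := by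
  simp [cols]

/-- the extensions of colourings of `U` to `insert c U`. -/
def ext (𝒮 : Finset (Finset V)) (U : Finset V) (c : V) : Finset (Finset V) :=
  cols 𝒮 U ∪ (cols 𝒮 U).image (insert c)

lemma mem_ext {𝒮 : Finset (Finset V)} {U R : Finset V} {c : V} (hc : c ∉ U)
    (h : R ∈ ext 𝒮 U c) : R ⊆ insert c U ∧ R.erase c ∈ cols 𝒮 U := by
  rw [ext, mem_union, mem_image] at h
  rcases h with h | ⟨R', h, rfl⟩
  · have h1 := (mem_cols.1 h).1
    refine ⟨h1.trans (subset_insert _ _), ?_⟩
    rwa [erase_eq_of_notMem (fun h' => hc (h1 h'))]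
  · have h1 := (mem_cols.1 h).1
    refine ⟨insert_subset_insert _ h1, ?_⟩
    rwa [erase_insert (fun h' => hc (h1 h'))]

lemma card_ext (𝒮 : Finset (Finset V)) (U : Finset V) (c : V) (hc : c ∉ U) :
    (ext 𝒮 U c).card = 2 * (cols 𝒮 U).card := by
  rw [ext, card_union_of_disjoint, card_image_of_injOn, two_mul]
  · intro R hR R' hR' h
    have h1 : c ∉ R := fun h' => hc ((mem_cols.1 hR).1 h')
    have h2 : c ∉ R' := fun h' => hc ((mem_cols.1 hR').1 h')
    have : (insert c R).erase c = (insert c R').erase c := by rw [h]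
    rwa [erase_insert h1, erase_insert h2] at this
  · rw [disjoint_left]
    intro R hR hR'
    obtain ⟨R', _, rfl⟩ := mem_image.1 hR'
    exact hc ((mem_cols.1 hR).1 (mem_insert_self _ _))

lemma card_bad (𝒮 : Finset (Finset V)) (U : Finset V) (c : V) (hc : c ∉ U) (S : Finset V)
    (hcS : c ∈ S) :
    ((ext 𝒮 U c).filter (fun R => S ⊆ R ∨ Disjoint S R)).card
      ≤ 2 * (cols 𝒮 (U \ S)).card := by
  have h2 : ((cols 𝒮 (U \ S)) ×ˢ (univ : Finset Bool)).card = 2 * (cols 𝒮 (U \ S)).card := by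
    rw [card_product]; simp [mul_comm]
  rw [← h2]
  refine card_le_card_of_injOn (fun R => (R \ S, decide (c ∈ R))) ?_ ?_
  · intro R hR
    rw [mem_coe, mem_filter] at hR
    obtain ⟨hR1, hR2⟩ := mem_ext hc hR.1
    rw [mem_coe, mem_product]
    refine ⟨?_, mem_univ _⟩
    rw [mem_cols]
    refine ⟨?_, ?_⟩
    · intro x hx
      rw [mem_sdiff] at hx ⊢
      rcases mem_insert.1 (hR1 hx.1) with h | h
      · exact absurd (h ▸ hcS) hx.2
      · exact ⟨h, hx.2⟩
    · intro S' hS' hsub
      have hsub' : S' ⊆ U := hsub.trans sdiff_subset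
      obtain ⟨h3, h4⟩ := (mem_cols.1 hR2).2 S' hS' hsub'
      refine ⟨fun h => h3 ?_, fun h => h4 ?_⟩
      · intro x hx
        rw [mem_erase]
        refine ⟨?_, (mem_sdiff.1 (h hx)).1⟩
        rintro rfl
        exact hc (hsub' hx)
      · rw [disjoint_left] at h ⊢
        intro x hx hx'
        exact h hx (mem_sdiff.2 ⟨mem_of_mem_erase hx', (mem_sdiff.1 (hsub hx)).2⟩)
  · intro R hR R' hR' h
    rw [mem_coe, mem_filter] at hR hR'
    simp only [Prod.mk.injEq, decide_eq_decide] at h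
    obtain ⟨h3, h4⟩ := h
    by_cases hcR : c ∈ R
    · have hcR' := h4.1 hcR
      have a1 : S ⊆ R := by
        rcases hR.2 with h | h
        · exact h
        · exact absurd hcR (disjoint_left.1 h hcS)
      have a2 : S ⊆ R' := by
        rcases hR'.2 with h | h
        · exact h
        · exact absurd hcR' (disjoint_left.1 h hcS)
      rw [← sdiff_union_of_subset a1, ← sdiff_union_of_subset a2, h3]
    · have hcR' : c ∉ R' := fun h => hcR (h4.2 h)
      have a1 : Disjoint S R := by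
        rcases hR.2 with h | h
        · exact absurd (h hcS) hcR
        · exact h
      have a2 : Disjoint S R' := by
        rcases hR'.2 with h | h
        · exact absurd (h hcS) hcR'
        · exact h
      rw [← sdiff_eq_self_of_disjoint a1.symm, ← sdiff_eq_self_of_disjoint a2.symm, h3]

/-- The family is sparse: the weighted number of members through any point is at most `ε`. -/
def Sparse (𝒮 : Finset (Finset V)) (ε : ℝ) : Prop :=
  ∀ c : V, ∑ S ∈ 𝒮 with c ∈ S, ((2 : ℝ) / 3) ^ (S.card - 1) ≤ ε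

lemma step (𝒮 : Finset (Finset V)) (h : Sparse 𝒮 (1 / 4)) (U : Finset V) :
    ∀ c ∉ U, (3 / 2 : ℝ) * (cols 𝒮 U).card ≤ (cols 𝒮 (insert c U)).card := by
  induction U using Finset.strongInduction with
  | H U ih =>
    intro c hc
    -- iterating the induction hypothesis
    have key : ∀ T : Finset V, T ⊆ U →
        ((cols 𝒮 (U \ T)).card : ℝ) ≤ (2 / 3 : ℝ) ^ T.card * (cols 𝒮 U).card := by
      intro T
      induction T using Finset.induction_on with
      | empty => intro _; simp
      | insert a T ha ihT =>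
        intro hT
        have haU : a ∈ U := hT (mem_insert_self _ _)
        have hTU : T ⊆ U := (subset_insert _ _).trans hT
        have h1 := ihT hTU
        have hss : U \ insert a T ⊂ U := by
          refine ⟨sdiff_subset, fun h' => ?_⟩
          exact (mem_sdiff.1 (h' haU)).2 (mem_insert_self _ _)
        have h2 := ih _ hss a (by simp)
        have h3 : insert a (U \ insert a T) = U \ T := by
          ext x
          simp only [mem_insert, mem_sdiff]
          constructor
          · rintro (rfl | ⟨hx, hx'⟩)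
            · exact ⟨haU, ha⟩
            · exact ⟨hx, fun h' => hx' (Or.inr h')⟩
          · rintro ⟨hx, hx'⟩
            by_cases hxa : x = a
            · exact Or.inl hxa
            · exact Or.inr ⟨hx, fun h' => h'.elim hxa hx'⟩
        rw [h3] at h2
        rw [card_insert_of_notMem ha, pow_succ]
        linarith
    set F : Finset (Finset V) := 𝒮.filter (fun S => c ∈ S ∧ S ⊆ insert c U) with hF
    have hcover : ext 𝒮 U c ⊆ cols 𝒮 (insert c U) ∪
        F.biUnion (fun S => (ext 𝒮 U c).filter (fun R => S ⊆ R ∨ Disjoint S R)) := by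
      intro R hR
      rw [mem_union]
      by_cases hR' : R ∈ cols 𝒮 (insert c U)
      · exact Or.inl hR'
      · right
        obtain ⟨h1, h2⟩ := mem_ext hc hR
        rw [mem_cols] at hR'
        push Not at hR'
        obtain ⟨S, hS, hSU, hS2⟩ := hR' h1
        rw [mem_biUnion]
        have h5 : S ⊆ R ∨ Disjoint S R := by
          by_cases h6 : S ⊆ R
          · exact Or.inl h6
          · exact Or.inr (hS2 h6)
        by_cases hcS : c ∈ S
        · exact ⟨S, by rw [hF, mem_filter]; exact ⟨hS, hcS, hSU⟩, by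
            rw [mem_filter]; exact ⟨hR, h5⟩⟩
        · exfalso
          have hSU' : S ⊆ U := by
            intro x hx
            rcases mem_insert.1 (hSU hx) with h | h
            · exact absurd (h ▸ hx) hcS
            · exact h
          obtain ⟨h3, h4⟩ := (mem_cols.1 h2).2 S hS hSU'
          rcases h5 with h5 | h5
          · exact h3 (fun x hx => mem_erase.2 ⟨fun h => hcS (h ▸ hx), h5 hx⟩)
          · exact h4 (h5.mono_right (erase_subset _ _))
    have hcard := (card_le_card hcover).trans ((card_union_le _ _).trans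
      (Nat.add_le_add_left card_biUnion_le _))
    rw [card_ext 𝒮 U c hc] at hcard
    have hcard' : (2 : ℝ) * (cols 𝒮 U).card ≤ (cols 𝒮 (insert c U)).card +
        ∑ S ∈ F, (((ext 𝒮 U c).filter (fun R => S ⊆ R ∨ Disjoint S R)).card : ℝ) := by
      exact_mod_cast hcard
    have hsum : ∑ S ∈ F, (((ext 𝒮 U c).filter (fun R => S ⊆ R ∨ Disjoint S R)).card : ℝ)
        ≤ ∑ S ∈ F, 2 * ((2 / 3 : ℝ) ^ (S.card - 1) * (cols 𝒮 U).card) := by
      refine sum_le_sum fun S hS => ?_
      rw [hF, mem_filter] at hS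
      obtain ⟨hS, hcS, hSU⟩ := hS
      have h1 : (((ext 𝒮 U c).filter (fun R => S ⊆ R ∨ Disjoint S R)).card : ℝ)
          ≤ 2 * (cols 𝒮 (U \ S)).card := by exact_mod_cast card_bad 𝒮 U c hc S hcS
      have h2 : U \ S = U \ (S.erase c) := by
        ext x
        simp only [mem_sdiff, mem_erase]
        constructor
        · rintro ⟨hx, hx'⟩
          exact ⟨hx, fun h' => hx' h'.2⟩
        · rintro ⟨hx, hx'⟩
          exact ⟨hx, fun h' => hx' ⟨fun h'' => hc (h'' ▸ hx), h'⟩⟩
      have h3 : S.erase c ⊆ U := by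
        intro x hx
        rw [mem_erase] at hx
        rcases mem_insert.1 (hSU hx.2) with h | h
        · exact absurd h hx.1
        · exact h
      have h4 := key _ h3
      rw [← h2, card_erase_of_mem hcS] at h4
      linarith
    have hsum2 : ∑ S ∈ F, 2 * ((2 / 3 : ℝ) ^ (S.card - 1) * (cols 𝒮 U).card)
        ≤ 2 * (1 / 4) * (cols 𝒮 U).card := by
      have h1 : ∑ S ∈ F, 2 * ((2 / 3 : ℝ) ^ (S.card - 1) * (cols 𝒮 U).card)
          = 2 * (∑ S ∈ F, (2 / 3 : ℝ) ^ (S.card - 1)) * (cols 𝒮 U).card := by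
        rw [mul_sum, sum_mul]
        refine sum_congr rfl fun S _ => by ring
      rw [h1]
      have h2 : ∑ S ∈ F, (2 / 3 : ℝ) ^ (S.card - 1) ≤ 1 / 4 := by
        refine le_trans ?_ (h c)
        refine sum_le_sum_of_subset_of_nonneg ?_ (fun _ _ _ => by positivity)
        intro S hS
        rw [hF, mem_filter] at hS
        rw [mem_filter]
        exact ⟨hS.1, hS.2.1⟩
      have h3 : (0 : ℝ) ≤ (cols 𝒮 U).card := Nat.cast_nonneg _
      nlinarith
    linarith

/-- Rosenfeld's counting argument for property B. -/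
theorem two_col (𝒮 : Finset (Finset V)) (hne : ∀ S ∈ 𝒮, S.Nonempty)
    (h : Sparse 𝒮 (1 / 4)) (U : Finset V) :
    ∃ R ⊆ U, ∀ S ∈ 𝒮, S ⊆ U → ¬ S ⊆ R ∧ ¬ Disjoint S R := by
  have h1 : 0 < (cols 𝒮 U).card := by
    induction U using Finset.induction_on with
    | empty =>
      rw [card_pos]
      refine ⟨∅, mem_cols.2 ⟨subset_rfl, ?_⟩⟩
      intro S hS hSU
      exact absurd (subset_empty.1 hSU) (hne S hS).ne_empty
    | insert c U hc ih =>
      have := step 𝒮 h U c hc
      have ih' : (0 : ℝ) < (cols 𝒮 U).card := by exact_mod_cast ih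
      have : (0 : ℝ) < (cols 𝒮 (insert c U)).card := by linarith
      exact_mod_cast this
  obtain ⟨R, hR⟩ := card_pos.1 h1
  exact ⟨R, (mem_cols.1 hR).1, (mem_cols.1 hR).2⟩

lemma Sparse.mono {𝒮 𝒮' : Finset (Finset V)} {ε ε' : ℝ} (h : Sparse 𝒮 ε) (hs : 𝒮' ⊆ 𝒮)
    (hε : ε ≤ ε') : Sparse 𝒮' ε' := by
  intro c
  refine le_trans ?_ ((h c).trans hε)
  exact sum_le_sum_of_subset_of_nonneg (filter_subset_filter _ hs) (fun _ _ _ => by positivity)

lemma Sparse.union {𝒮 𝒮' : Finset (Finset V)} {ε ε' : ℝ} (h : Sparse 𝒮 ε) (h' : Sparse 𝒮' ε') :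
    Sparse (𝒮 ∪ 𝒮') (ε + ε') := by
  intro c
  rw [filter_union]
  refine le_trans ?_ (add_le_add (h c) (h' c))
  rw [← sum_union_inter]
  have : (0 : ℝ) ≤ ∑ S ∈ 𝒮.filter (c ∈ ·) ∩ 𝒮'.filter (c ∈ ·), (2 / 3 : ℝ) ^ (S.card - 1) :=
    sum_nonneg fun _ _ => by positivity
  linarith

lemma Sparse.biUnion {ι : Type*} [DecidableEq ι] (s : Finset ι) (f : ι → Finset (Finset V))
    (ε : ι → ℝ) (h : ∀ i ∈ s, Sparse (f i) (ε i)) : Sparse (s.biUnion f) (∑ i ∈ s, ε i) := by
  induction s using Finset.induction_on with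
  | empty => intro c; simp
  | insert a s ha ih =>
    rw [biUnion_insert, sum_insert ha]
    exact (h a (mem_insert_self _ _)).union (ih fun i hi => h i (mem_insert_of_mem hi))

/-- sparsity from a count. -/
lemma Sparse.of_card {𝒮 : Finset (Finset V)} {ε : ℝ} (C N : ℕ)
    (hN : ∀ S ∈ 𝒮, N ≤ S.card) (hC : ∀ c, (𝒮.filter (c ∈ ·)).card ≤ C)
    (hε : (C : ℝ) * (2 / 3 : ℝ) ^ (N - 1) ≤ ε) : Sparse 𝒮 ε := by
  intro c
  refine le_trans ?_ hε
  calc ∑ S ∈ 𝒮 with c ∈ S, ((2 : ℝ) / 3) ^ (S.card - 1)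
      ≤ ∑ S ∈ 𝒮 with c ∈ S, ((2 : ℝ) / 3) ^ (N - 1) := by
        refine sum_le_sum fun S hS => ?_
        rw [mem_filter] at hS
        exact pow_le_pow_of_le_one (by norm_num) (by norm_num)
          (Nat.sub_le_sub_right (hN S hS.1) 1)
    _ = ((𝒮.filter (c ∈ ·)).card : ℝ) * (2 / 3 : ℝ) ^ (N - 1) := by
        rw [sum_const, nsmul_eq_mul]
    _ ≤ _ := by
        have : ((𝒮.filter (c ∈ ·)).card : ℝ) ≤ C := by exact_mod_cast hC c
        gcongr

end TwoCol

end Pool.Agent.Helper132.PermRamsey
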